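import Pool.Agent.TH777.LD.Loc

set_option autoImplicit false

/-!
# The local bound for the determinant
-/

namespace Pool.Agent.TH777.LD

open Polynomial Pool.Agent.H537R6

variable {K : Type} [Field K]

/-- the ultrametric bound for determinants, row by row -/
theorem det_le_row {v : AbsoluteValue K ℝ} (hv : IsNonarchimedean v) {n : ℕ}
    (M : Matrix (Fin n) (Fin n) K) (c : Fin n → ℝ) (h : ∀ i j, v (M i j) ≤ c i) :
    v M.det ≤ ∏ j, c j := by
  rw [← Matrix.det_transpose]
  exact det_le_col hv M.transpose c fun i j => h j i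

theorem det_local {v : AbsoluteValue K ℝ} (hv : IsNonarchimedean v) {N : ℕ}
    (M : Matrix (Fin N) (Fin N) K) (J : Finset (Fin N)) (A : Fin N → ℝ) (hA1 : ∀ j, 1 ≤ A j)
    (hMA : ∀ j m, v (M j m) ≤ A j) (ξ : {j // j ∈ J} → OO v hv) (P : Fin N → (OO v hv)[X])
    (hP : ∀ (j : {j // j ∈ J}) m, (((P m).eval (ξ j) : OO v hv) : K) = M j m) {p d : ℕ}
    (hp : p.Prime) (hd : 1 ≤ d)
    (hO : ∀ j : {j // j ∈ J}, v (aeval ((ξ j : OO v hv) : K) (Om p d)) ≤ v (p : K)) :
    v M.det ≤ (∏ j, A j) * v (p : K) ^ (∑ l ∈ Finset.range J.card, l / (d * p ^ d)) := by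
  classical
  rcases Nat.eq_zero_or_pos J.card with h0 | hpos
  · rw [h0, Finset.range_zero, Finset.sum_empty, pow_zero, mul_one]
    exact det_le_row hv M A hMA
  have hNpos : 0 < N := by
    have := J.card_le_univ
    rw [Fintype.card_fin] at this
    omega
  have : Nonempty (Fin N) := ⟨⟨0, hNpos⟩⟩
  have hrow : ∀ j : Fin N, ∃ (t : K) (a : Fin N → OO v hv), v t ≤ A j ∧ (j ∈ J → t = 1) ∧
      ∀ m, M j m = t * (a m : K) := by
    intro j
    by_cases hj : j ∈ J
    · refine ⟨1, fun m => (P m).eval (ξ ⟨j, hj⟩), ?_, fun _ => rfl, fun m => ?_⟩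
      · rw [map_one]
        exact hA1 j
      · rw [one_mul]
        exact (hP ⟨j, hj⟩ m).symm
    · obtain ⟨m0, _, hm0⟩ := Finset.exists_max_image Finset.univ (fun m => v (M j m))
        Finset.univ_nonempty
      by_cases hz : M j m0 = 0
      · refine ⟨1, fun _ => 0, ?_, fun h => absurd h hj, fun m => ?_⟩
        · rw [map_one]
          exact hA1 j
        · have h1 := hm0 m (Finset.mem_univ _)
          rw [hz, map_zero] at h1
          have h2 : M j m = 0 := v.eq_zero.1 (le_antisymm h1 (v.nonneg _))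
          rw [h2]
          simp
      · have hv0 : 0 < v (M j m0) := v.pos hz
        refine ⟨M j m0, fun m => ⟨M j m / M j m0, ?_⟩, hMA j m0, fun h => absurd h hj, fun m => ?_⟩
        · show v (M j m / M j m0) ≤ 1
          rw [map_div₀, div_le_one hv0]
          exact hm0 m (Finset.mem_univ _)
        · show M j m = M j m0 * (M j m / M j m0)
          field_simp
  choose t a ht ht1 hta using hrow
  obtain ⟨A', hA'⟩ : ∃ A' : Matrix (Fin N) (Fin N) (OO v hv), A' = Matrix.of a := ⟨_, rfl⟩
  have hM : M = Matrix.diagonal t * (OO v hv).subtype.mapMatrix A' := by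
    ext j m
    rw [Matrix.diagonal_mul, hA']
    simp only [RingHom.mapMatrix_apply, Matrix.map_apply, Matrix.of_apply]
    exact hta j m
  have hdet : M.det = (∏ j, t j) * ((A'.det : OO v hv) : K) := by
    conv_lhs => rw [hM]
    rw [Matrix.det_mul, Matrix.det_diagonal, ← RingHom.map_det]
    rfl
  have hdvd := U_PAD.detdiv J hpos ξ P (fun _ => 1) A' (by
    intro j m
    rw [one_mul]
    apply Subtype.ext
    have h1 := hta j m
    rw [ht1 j j.2, one_mul] at h1
    rw [hP j m, h1, hA']
    rfl)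
  obtain ⟨r, hr⟩ := hdvd
  have hvdm : v (((Matrix.vandermonde (fun i : Fin J.card => ξ (J.equivFin.symm i))).det :
      OO v hv) : K) ≤ v (p : K) ^ (∑ l ∈ Finset.range J.card, l / (d * p ^ d)) := by
    have h1 : (((Matrix.vandermonde (fun i : Fin J.card => ξ (J.equivFin.symm i))).det :
        OO v hv) : K) =
        (Matrix.vandermonde (fun i : Fin J.card => ((ξ (J.equivFin.symm i) : OO v hv) : K))).det := by
      have h2 : (((Matrix.vandermonde (fun i : Fin J.card => ξ (J.equivFin.symm i))).det :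
        OO v hv) : K) = (OO v hv).subtype
          (Matrix.vandermonde (fun i : Fin J.card => ξ (J.equivFin.symm i))).det := rfl
      rw [h2, RingHom.map_det]
      congr 1
    rw [h1]
    exact vdm_small hv hp hd _ (fun i => (ξ (J.equivFin.symm i)).2)
      (fun i => hO (J.equivFin.symm i))
  rw [hdet, map_mul, map_prod, hr]
  have h3 : v (((Matrix.vandermonde (fun i : Fin J.card => ξ (J.equivFin.symm i))).det * r :
      OO v hv) : K) ≤ v (p : K) ^ (∑ l ∈ Finset.range J.card, l / (d * p ^ d)) := by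
    have h4 : (((Matrix.vandermonde (fun i : Fin J.card => ξ (J.equivFin.symm i))).det * r :
      OO v hv) : K) = (((Matrix.vandermonde (fun i : Fin J.card => ξ (J.equivFin.symm i))).det :
      OO v hv) : K) * (r : K) := rfl
    rw [h4, map_mul]
    have h5 : v (r : K) ≤ 1 := r.2
    calc _ ≤ v (p : K) ^ (∑ l ∈ Finset.range J.card, l / (d * p ^ d)) * 1 :=
          mul_le_mul hvdm h5 (v.nonneg _) (pow_nonneg (v.nonneg _) _)
      _ = _ := mul_one _
  exact mul_le_mul (Finset.prod_le_prod (fun j _ => v.nonneg _) fun j _ => ht j) h3 (v.nonneg _)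
    (Finset.prod_nonneg fun j _ => by linarith [hA1 j])

end Pool.Agent.TH777.LD
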