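import Mathlib

set_option autoImplicit false

/-!
# The global inequality from the product formula
-/

namespace Pool.Agent.TH777.LD

open Height Height.AdmissibleAbsValues Real Finset

variable {K : Type} [Field K] [NumberField K]

theorem pf {x : K} (hx : x ≠ 0) (T : Finset (nonarchAbsVal (K := K)))
    (hT : ∀ v, v ∉ T → v.val x = 1) :
    ((archAbsVal (K := K)).map fun v => Real.log (v x)).sum + ∑ v ∈ T, Real.log (v.val x) = 0 := by
  have h1 := product_formula hx
  have h2 : ∏ᶠ v : nonarchAbsVal (K := K), v.val x = ∏ v ∈ T, v.val x := by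
    refine finprod_eq_prod_of_mulSupport_subset _ ?_
    intro v hv
    by_contra h3
    exact hv (hT v h3)
  rw [h2] at h1
  have h3 := congrArg Real.log h1
  have h4 : ∀ v : nonarchAbsVal (K := K), v.val x ≠ 0 := fun v => v.val.ne_zero hx
  have h5 : ∀ a ∈ (archAbsVal (K := K)).map (fun v => v x), a ≠ 0 := by
    intro a ha
    obtain ⟨v, _, rfl⟩ := Multiset.mem_map.1 ha
    exact v.ne_zero hx
  rw [Real.log_one, Real.log_mul (by
    intro h0
    exact h5 0 (Multiset.prod_eq_zero_iff.1 h0) rfl) (prod_ne_zero_iff.2 fun v _ => h4 v),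
    Real.log_prod fun v _ => h4 v, log_multiset_prod h5, Multiset.map_map] at h3
  exact h3

theorem ht (y : K) (T : Finset (nonarchAbsVal (K := K)))
    (hT : y ≠ 0 → ∀ v, v ∉ T → v.val y = 1) :
    logHeight₁ y = ((archAbsVal (K := K)).map fun v => log⁺ (v y)).sum +
      ∑ v ∈ T, log⁺ (v.val y) := by
  rw [Height.logHeight₁_eq]
  congr 1
  refine finsum_eq_sum_of_support_subset _ ?_
  intro v hv
  by_contra h3
  apply hv
  by_cases hy : y = 0
  · show log⁺ (v.val y) = 0
    rw [hy, map_zero]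
    simp
  · show log⁺ (v.val y) = 0
    rw [hT hy v h3]
    simp

theorem exT (E : Finset K) : ∃ T : Finset (nonarchAbsVal (K := K)),
    ∀ e ∈ E, e ≠ 0 → ∀ v, v ∉ T → v.val e = 1 := by
  classical
  have h1 : ∀ e : K, ∃ T : Finset (nonarchAbsVal (K := K)), e ≠ 0 → ∀ v, v ∉ T → v.val e = 1 := by
    intro e
    by_cases he : e = 0
    · exact ⟨∅, fun h => absurd he h⟩
    · have h2 : (Function.mulSupport fun v : nonarchAbsVal (K := K) => v.val e).Finite :=
        hasFiniteMulSupport he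
      refine ⟨h2.toFinset, fun _ v hv => ?_⟩
      by_contra h3
      exact hv (h2.mem_toFinset.2 h3)
  choose t ht using h1
  refine ⟨E.biUnion t, fun e he he0 v hv => ht e he0 v fun h3 => hv ?_⟩
  exact mem_biUnion.2 ⟨e, he, h3⟩

theorem arch_log (p : ℕ) : ((archAbsVal (K := K)).map fun v => Real.log (v (p : K))).sum =
    Module.finrank ℚ K * Real.log p := by
  rw [NumberField.sum_archAbsVal_eq (fun v => Real.log (v (p : K)))]
  have h1 : ∀ w : NumberField.InfinitePlace K, w.val (p : K) = p := by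
    intro w
    have h2 : w (p : K) = p := by
      rw [← NumberField.InfinitePlace.norm_embedding_eq, map_natCast]
      simp
    exact h2
  simp only [h1, nsmul_eq_mul]
  rw [← sum_mul, ← Nat.cast_sum, NumberField.InfinitePlace.sum_mult_eq]

theorem floor_sum (s : ℕ) (hs : 1 ≤ s) (n : ℕ) :
    (n : ℝ) * (n - 1) / (2 * s) - n ≤ ((∑ l ∈ range n, l / s : ℕ) : ℝ) := by
  have hs0 : (0 : ℝ) < s := by exact_mod_cast hs
  induction n with
  | zero => simp
  | succ n ih =>
    rw [sum_range_succ]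
    push_cast at ih ⊢
    have h1 : (n : ℝ) / s - 1 ≤ ((n / s : ℕ) : ℝ) := by
      have h3 : n < s * (n / s + 1) := Nat.lt_mul_div_succ n hs
      have h4 : (n : ℝ) < s * (((n / s : ℕ) : ℝ) + 1) := by exact_mod_cast h3
      have h5 : (n : ℝ) / s < ((n / s : ℕ) : ℝ) + 1 := by
        rw [div_lt_iff₀ hs0]
        linarith
      linarith
    have e : ((n : ℝ) + 1) * (n + 1 - 1) / (2 * s) - (n + 1) =
        (n * (n - 1) / (2 * s) - n) + (n / s - 1) := by
      field_simp
      ring
    rw [e]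
    linarith

theorem floor_sum' (s : ℕ) (hs : 1 ≤ s) (N n b : ℕ) (h : n + b = N) :
    (N : ℝ) ^ 2 / (2 * s) - N * (b / s) - 3 / 2 * N ≤ ((∑ l ∈ range n, l / s : ℕ) : ℝ) := by
  refine le_trans ?_ (floor_sum s hs n)
  have hs1 : (1 : ℝ) ≤ s := by exact_mod_cast hs
  have hs0 : (0 : ℝ) < s := by linarith
  have hN : (N : ℝ) = n + b := by exact_mod_cast h.symm
  have hn0 : (0 : ℝ) ≤ n := Nat.cast_nonneg _
  have hb0 : (0 : ℝ) ≤ b := Nat.cast_nonneg _
  have e : (n : ℝ) * (n - 1) / (2 * s) - n - ((N : ℝ) ^ 2 / (2 * s) - N * (b / s) - 3 / 2 * N) =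
      (b ^ 2 - n) / (2 * s) + (1 / 2 * n + 3 / 2 * b) := by
    rw [hN]
    field_simp
    ring
  have h1 : -(n : ℝ) / 2 ≤ (b ^ 2 - n) / (2 * s) := by
    rw [le_div_iff₀ (by positivity)]
    nlinarith [mul_nonneg hn0 (sub_nonneg.2 hs1), sq_nonneg (b : ℝ)]
  linarith

/-- the sum of the positive parts of the logarithms at one place -/
noncomputable def lam {N : ℕ} (n : ℕ) (y : Fin N → ℕ → K) (v : AbsoluteValue K ℝ) : ℝ :=
  ∑ j, ∑ k ∈ range n, log⁺ (v (y j k))

/-- the product of the maxima -/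
noncomputable def mx {N : ℕ} (n : ℕ) (y : Fin N → ℕ → K) (v : AbsoluteValue K ℝ) (j : Fin N) : ℝ :=
  ∏ k ∈ range n, (max 1 (v (y j k))) ^ 3

omit [NumberField K] in
theorem one_le_mx {N : ℕ} (n : ℕ) (y : Fin N → ℕ → K) (v : AbsoluteValue K ℝ) (j : Fin N) :
    1 ≤ mx n y v j := by
  rw [mx]
  calc (1 : ℝ) = ∏ _k ∈ range n, (1 : ℝ) := by rw [prod_const_one]
    _ ≤ _ := prod_le_prod (fun _ _ => zero_le_one) fun k _ => one_le_pow₀ (le_max_left _ _)

omit [NumberField K] in
theorem log_mx {N : ℕ} (n : ℕ) (y : Fin N → ℕ → K) (v : AbsoluteValue K ℝ) :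
    Real.log (∏ j, mx n y v j) = 3 * lam n y v := by
  rw [Real.log_prod fun j _ => by linarith [one_le_mx n y v j], lam, mul_sum]
  refine sum_congr rfl fun j _ => ?_
  have h1 : ∀ k ∈ range n, (max 1 (v (y j k))) ^ 3 ≠ 0 := by
    intro k _
    have : (0 : ℝ) < max 1 (v (y j k)) := lt_of_lt_of_le one_pos (le_max_left _ _)
    positivity
  rw [mx, Real.log_prod h1, mul_sum]
  refine sum_congr rfl fun k _ => ?_
  rw [Real.log_pow, posLog_eq_log_max_one (v.nonneg _)]
  norm_num

omit [NumberField K] in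
theorem lam_nonneg {N : ℕ} (n : ℕ) (y : Fin N → ℕ → K) (v : AbsoluteValue K ℝ) :
    0 ≤ lam n y v := sum_nonneg fun _ _ => sum_nonneg fun _ _ => posLog_nonneg

open Classical in
/-- the points which are good at one place -/
noncomputable def good {N : ℕ} (m : ℕ) (z : Fin N → ℕ → K) (v : AbsoluteValue K ℝ) :
    Finset (Fin N) := univ.filter fun j => ∀ k < m, v (z j k) ≤ 1

/-- the bound at one nonarchimedean place -/
theorem local_bound {N n m : ℕ} {M : Matrix (Fin N) (Fin N) K} (hdet : M.det ≠ 0)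
    {y z : Fin N → ℕ → K} {s : ℕ} (hs1 : 1 ≤ s) {v : AbsoluteValue K ℝ} (hv : IsNonarchimedean v)
    {PP : Finset ℕ} (hPP : ∀ p ∈ PP, p.Prime)
    (hna : v M.det ≤ ∏ j, mx n y v j)
    (hloc : ∀ p ∈ PP, v (p : K) < 1 → v M.det ≤
      (∏ j, mx n y v j) * v (p : K) ^ (∑ l ∈ range (good m z v).card, l / s))
    (hram : ∀ p ∈ PP, v (p : K) < 1 → ∀ j, ∀ k < m, 1 < v (z j k) →
      -Real.log (v (p : K)) ≤ Real.log (v (z j k))) :
    Real.log (v M.det) ≤ 3 * lam n y v + N / s * lam m z v -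
      (∑ p ∈ PP, (-Real.log (v (p : K)))) * ((N : ℝ) ^ 2 / (2 * s) - 3 / 2 * N) := by
  classical
  have hdet0 : 0 < v M.det := v.pos hdet
  have hmx0 : ∀ j, 0 < mx n y v j := fun j => by linarith [one_le_mx n y v j]
  have hlam := lam_nonneg m z v
  have hle1 : ∀ p : ℕ, v (p : K) ≤ 1 := by
    intro p
    exact IsNonarchimedean.apply_natCast_le_one hv
  by_cases hcase : ∃ p ∈ PP, v (p : K) < 1
  · obtain ⟨p, hp, hvp⟩ := hcase
    have hpp := hPP p hp
    have hother : ∀ p' ∈ PP, p' ≠ p → v (p' : K) = 1 := by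
      intro p' hp' hne
      refine le_antisymm (hle1 p') ?_
      by_contra hlt
      push Not at hlt
      have hcop : IsCoprime (p : ℤ) (p' : ℤ) := by
        rw [Nat.isCoprime_iff_coprime]
        exact (Nat.coprime_primes hpp (hPP p' hp')).2 (Ne.symm hne)
      obtain ⟨a, b, hab⟩ := hcop
      have hint : ∀ n : ℤ, v (n : K) ≤ 1 := fun n => IsNonarchimedean.apply_intCast_le_one hv
      have h2 : v ((a * p + b * p' : ℤ) : K) < 1 := by
        push_cast
        refine (hv _ _).trans_lt (max_lt ?_ ?_)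
        · rw [map_mul]
          calc v (a : K) * v (p : K) ≤ 1 * v (p : K) :=
                mul_le_mul_of_nonneg_right (hint a) (v.nonneg _)
            _ < 1 := by rw [one_mul]; exact hvp
        · rw [map_mul]
          calc v (b : K) * v (p' : K) ≤ 1 * v (p' : K) :=
                mul_le_mul_of_nonneg_right (hint b) (v.nonneg _)
            _ < 1 := by rw [one_mul]; exact hlt
      rw [hab, Int.cast_one, map_one] at h2
      exact lt_irrefl _ h2
    have hsum : ∑ p ∈ PP, (-Real.log (v (p : K))) = -Real.log (v (p : K)) := by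
      refine sum_eq_single p ?_ fun h => absurd hp h
      intro p' hp' hne
      rw [hother p' hp' hne, Real.log_one, neg_zero]
    rw [hsum]
    have hp0 : 0 < v (p : K) := v.pos (by exact_mod_cast hpp.ne_zero)
    obtain ⟨ℓ, hℓ⟩ : ∃ ℓ, ℓ = -Real.log (v (p : K)) := ⟨_, rfl⟩
    have hℓ0 : 0 < ℓ := by
      rw [hℓ]
      have := Real.log_neg hp0 hvp
      linarith
    have hs1' : (0 : ℝ) < s := by exact_mod_cast hs1
    obtain ⟨W, hW⟩ : ∃ W : ℕ, W = ∑ l ∈ range (good m z v).card, l / s := ⟨_, rfl⟩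
    obtain ⟨b, hb⟩ : ∃ b : ℕ, b = (univ.filter fun j => j ∉ good m z v).card := ⟨_, rfl⟩
    have hnb : (good m z v).card + b = N := by
      have h1 : (good m z v).card = (univ.filter fun j => j ∈ good m z v).card := by
        congr 1
        ext j
        simp
      rw [hb, h1, card_filter_add_card_filter_not, card_univ, Fintype.card_fin]
    have h1 := hloc p hp hvp
    rw [← hW] at h1
    have h2 := Real.log_le_log hdet0 h1
    rw [Real.log_mul (prod_ne_zero_iff.2 fun j _ => (hmx0 j).ne') (by positivity), log_mx,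
      Real.log_pow] at h2
    have h3 := floor_sum' s hs1 N (good m z v).card b hnb
    rw [← hW] at h3
    -- bad points
    have h4 : (b : ℝ) * ℓ ≤ lam m z v := by
      rw [lam]
      calc (b : ℝ) * ℓ = ∑ _j ∈ univ.filter (fun j => j ∉ good m z v), ℓ := by
            rw [sum_const, nsmul_eq_mul, hb]
        _ ≤ ∑ j ∈ univ.filter (fun j => j ∉ good m z v), ∑ k ∈ range m, log⁺ (v (z j k)) := by
            refine sum_le_sum fun j hj => ?_
            have hj' := (mem_filter.1 hj).2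
            rw [good, mem_filter] at hj'
            push Not at hj'
            obtain ⟨k, hk, hvk⟩ := hj' (mem_univ _)
            have h5 := hram p hp hvp j k hk hvk
            rw [← hℓ] at h5
            have h6 : log⁺ (v (z j k)) ≤ ∑ k ∈ range m, log⁺ (v (z j k)) :=
              single_le_sum (f := fun k => log⁺ (v (z j k))) (fun _ _ => posLog_nonneg)
                (mem_range.2 hk)
            rw [posLog_eq_log (by rw [abs_of_nonneg (v.nonneg _)]; exact hvk.le)] at h6
            exact h5.trans h6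
        _ ≤ ∑ j, ∑ k ∈ range m, log⁺ (v (z j k)) :=
            sum_le_sum_of_subset_of_nonneg (filter_subset _ _) fun j _ _ =>
              sum_nonneg fun _ _ => posLog_nonneg
    rw [← hℓ]
    have h7 : (W : ℝ) * Real.log (v (p : K)) = -(ℓ * W) := by
      rw [hℓ]
      ring
    rw [h7] at h2
    have h8 : ℓ * ((N : ℝ) ^ 2 / (2 * s) - N * (b / s) - 3 / 2 * N) ≤ ℓ * W :=
      mul_le_mul_of_nonneg_left h3 hℓ0.le
    have h9 : ℓ * (N * (b / s)) ≤ N / s * lam m z v := by
      have e1 : ℓ * ((N : ℝ) * (b / s)) = (N / s) * (b * ℓ) := by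
        field_simp
      rw [e1]
      exact mul_le_mul_of_nonneg_left h4 (by positivity)
    have h10 : ℓ * ((N : ℝ) ^ 2 / (2 * s) - N * (b / s) - 3 / 2 * N) =
        ℓ * ((N : ℝ) ^ 2 / (2 * s) - 3 / 2 * N) - ℓ * (N * (b / s)) := by ring
    rw [h10] at h8
    linarith
  · push Not at hcase
    have hsum : ∑ p ∈ PP, (-Real.log (v (p : K))) = 0 := by
      refine sum_eq_zero fun p hp => ?_
      rw [le_antisymm (hle1 p) (hcase p hp), Real.log_one, neg_zero]
    rw [hsum, zero_mul, sub_zero]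
    have h2 := Real.log_le_log hdet0 hna
    rw [log_mx] at h2
    have h3 : 0 ≤ (N : ℝ) / s * lam m z v := mul_nonneg (by positivity) hlam
    linarith

omit [NumberField K] in
omit [Field K] in
theorem ms_sum {α ι : Type} (s : Multiset α) (t : Finset ι) (F : α → ι → ℝ) :
    (s.map fun v => ∑ j ∈ t, F v j).sum = ∑ j ∈ t, (s.map fun v => F v j).sum := by
  induction s using Multiset.induction_on with
  | empty => simp
  | cons a s ih =>
    simp only [Multiset.map_cons, Multiset.sum_cons]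
    rw [ih, sum_add_distrib]

/-- the sum of the heights -/
theorem sum_ht {N n : ℕ} (y : Fin N → ℕ → K) (T : Finset (nonarchAbsVal (K := K)))
    (hTy : ∀ j, ∀ k ∈ range n, y j k ≠ 0 → ∀ v, v ∉ T → v.val (y j k) = 1) :
    ∑ j, ∑ k ∈ range n, logHeight₁ (y j k) =
      ((archAbsVal (K := K)).map fun v => lam n y v).sum + ∑ v ∈ T, lam n y v.val := by
  have h1 : ∑ j, ∑ k ∈ range n, logHeight₁ (y j k) =
      ∑ j, ∑ k ∈ range n, (((archAbsVal (K := K)).map fun v => log⁺ (v (y j k))).sum +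
        ∑ v ∈ T, log⁺ (v.val (y j k))) := by
    refine sum_congr rfl fun j _ => sum_congr rfl fun k hk => ?_
    exact ht (y j k) T (hTy j k hk)
  rw [h1]
  simp only [sum_add_distrib]
  congr 1
  · simp only [lam]
    rw [ms_sum]
    refine sum_congr rfl fun j _ => ?_
    rw [ms_sum]
  · simp only [lam]
    have h2 : ∀ j : Fin N, ∑ k ∈ range n, ∑ v ∈ T, log⁺ (v.val (y j k)) =
        ∑ v ∈ T, ∑ k ∈ range n, log⁺ (v.val (y j k)) := fun j => sum_comm
    simp only [h2]
    exact sum_comm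

theorem arch_lam_nonneg {N n : ℕ} (y : Fin N → ℕ → K) :
    0 ≤ ((archAbsVal (K := K)).map fun v => lam n y v).sum := by
  refine Multiset.sum_nonneg fun a ha => ?_
  obtain ⟨v, _, rfl⟩ := Multiset.mem_map.1 ha
  exact lam_nonneg n y v

/-- the global inequality -/
theorem global {N n m : ℕ} {M : Matrix (Fin N) (Fin N) K} (hdet : M.det ≠ 0)
    {y z : Fin N → ℕ → K} {s : ℕ} (hs1 : 1 ≤ s) {PP : Finset ℕ} (hPP : ∀ p ∈ PP, p.Prime)
    (harch : ∀ v ∈ archAbsVal (K := K), v M.det ≤ N.factorial * ∏ j, mx n y v j)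
    (hna : ∀ v ∈ nonarchAbsVal (K := K), v M.det ≤ ∏ j, mx n y v j)
    (hloc : ∀ v ∈ nonarchAbsVal (K := K), ∀ p ∈ PP, v (p : K) < 1 → v M.det ≤
      (∏ j, mx n y v j) * v (p : K) ^ (∑ l ∈ range (good m z v).card, l / s))
    (hram : ∀ v ∈ nonarchAbsVal (K := K), ∀ p ∈ PP, v (p : K) < 1 → ∀ j, ∀ k < m,
      1 < v (z j k) → -Real.log (v (p : K)) ≤ Real.log (v (z j k))) :
    (Module.finrank ℚ K : ℝ) * ((∑ p ∈ PP, Real.log p) * ((N : ℝ) ^ 2 / (2 * s) - 3 / 2 * N)) ≤
      Module.finrank ℚ K * Real.log N.factorial +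
        3 * (∑ j, ∑ k ∈ range n, logHeight₁ (y j k)) +
        N / s * ∑ j, ∑ k ∈ range m, logHeight₁ (z j k) := by
  classical
  obtain ⟨T, hT⟩ := exT (K := K) ({M.det} ∪ (univ.biUnion fun j : Fin N =>
    (range n).image (y j)) ∪ (univ.biUnion fun j : Fin N =>
    (range m).image (z j)) ∪ PP.image fun p : ℕ => (p : K))
  have hTdet : ∀ v, v ∉ T → v.val M.det = 1 := hT M.det (by simp) hdet
  have hTy : ∀ j, ∀ k ∈ range n, y j k ≠ 0 → ∀ v, v ∉ T → v.val (y j k) = 1 := by
    intro j k hk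
    refine hT (y j k) ?_
    refine mem_union_left _ (mem_union_left _ (mem_union_right _ ?_))
    exact mem_biUnion.2 ⟨j, mem_univ _, mem_image.2 ⟨k, hk, rfl⟩⟩
  have hTz : ∀ j, ∀ k ∈ range m, z j k ≠ 0 → ∀ v, v ∉ T → v.val (z j k) = 1 := by
    intro j k hk
    refine hT (z j k) ?_
    refine mem_union_left _ (mem_union_right _ ?_)
    exact mem_biUnion.2 ⟨j, mem_univ _, mem_image.2 ⟨k, hk, rfl⟩⟩
  have hTp : ∀ p ∈ PP, ∀ v, v ∉ T → v.val (p : K) = 1 := by
    intro p hp
    refine hT (p : K) (mem_union_right _ (mem_image.2 ⟨p, hp, rfl⟩)) ?_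
    exact_mod_cast (hPP p hp).ne_zero
  obtain ⟨κ, hκ⟩ : ∃ κ : ℝ, κ = N / s := ⟨_, rfl⟩
  have hκ0 : 0 ≤ κ := by
    rw [hκ]
    positivity
  obtain ⟨e, he⟩ : ∃ e : ℝ, e = (N : ℝ) ^ 2 / (2 * s) - 3 / 2 * N := ⟨_, rfl⟩
  -- archimedean part
  have hA : ((archAbsVal (K := K)).map fun v => Real.log (v M.det)).sum ≤
      Module.finrank ℚ K * Real.log N.factorial +
        3 * ((archAbsVal (K := K)).map fun v => lam n y v).sum := by
    have h1 : ((archAbsVal (K := K)).map fun v => Real.log (v M.det)).sum ≤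
        ((archAbsVal (K := K)).map fun v => Real.log N.factorial + 3 * lam n y v).sum := by
      refine Multiset.sum_map_le_sum_map _ _ fun v hv => ?_
      have h2 := Real.log_le_log (v.pos hdet) (harch v hv)
      have h3 : (0 : ℝ) < N.factorial := by exact_mod_cast N.factorial_pos
      have h4 : ∏ j, mx n y v j ≠ 0 := prod_ne_zero_iff.2 fun j _ => by
        linarith [one_le_mx n y v j]
      rwa [Real.log_mul h3.ne' h4, log_mx] at h2
    refine h1.trans (le_of_eq ?_)
    rw [Multiset.sum_map_add, Multiset.sum_map_mul_left, Multiset.map_const', Multiset.sum_replicate,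
      nsmul_eq_mul]
    have h5 : (archAbsVal (K := K)).card = Module.finrank ℚ K :=
      NumberField.totalWeight_eq_finrank K
    rw [h5]
  -- nonarchimedean part
  have hB : ∑ v ∈ T, Real.log (v.val M.det) ≤ 3 * ∑ v ∈ T, lam n y v.val +
      κ * ∑ v ∈ T, lam m z v.val -
      (∑ p ∈ PP, ∑ v ∈ T, -Real.log (v.val (p : K))) * e := by
    have h1 : ∀ v ∈ T, Real.log (v.val M.det) ≤ 3 * lam n y v.val + κ * lam m z v.val -
        (∑ p ∈ PP, (-Real.log (v.val (p : K)))) * e := by
      intro v _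
      rw [hκ, he]
      exact local_bound hdet hs1 (isNonarchimedean v.val v.2) hPP (hna v.val v.2)
        (hloc v.val v.2) (hram v.val v.2)
    refine (sum_le_sum h1).trans (le_of_eq ?_)
    rw [sum_sub_distrib, sum_add_distrib, mul_sum, mul_sum, ← sum_mul, sum_comm]
  have hPF := pf hdet T hTdet
  -- primes
  have hP : ∀ p ∈ PP, ∑ v ∈ T, -Real.log (v.val (p : K)) = Module.finrank ℚ K * Real.log p := by
    intro p hp
    have h1 := pf (K := K) (x := (p : K)) (by exact_mod_cast (hPP p hp).ne_zero) T (hTp p hp)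
    rw [arch_log] at h1
    rw [sum_neg_distrib]
    linarith
  rw [sum_congr rfl hP, ← mul_sum] at hB
  have h6 : 0 ≤ κ * ((archAbsVal (K := K)).map fun v => lam m z v).sum :=
    mul_nonneg hκ0 (arch_lam_nonneg z)
  rw [sum_ht y T hTy, sum_ht z T hTz, ← hκ, ← he, mul_add, mul_add]
  have h7 : (Module.finrank ℚ K : ℝ) * ((∑ p ∈ PP, Real.log (p : ℝ)) * e) =
      Module.finrank ℚ K * (∑ p ∈ PP, Real.log (p : ℝ)) * e := by ring
  rw [h7]
  linarith

end Pool.Agent.TH777.LD
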