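import Pool.Agent.TH777.LD.Prog
import Pool.Agent.TH777.LD.Glob

set_option autoImplicit false

/-!
# The inequality for programs
-/

namespace Pool.Agent.TH777.LD

open Polynomial Height Height.AdmissibleAbsValues

/-- the trivial bound for determinants -/
theorem det_le_any {K : Type} [Field K] (v : AbsoluteValue K ℝ) {n : ℕ}
    (M : Matrix (Fin n) (Fin n) K) (c : Fin n → ℝ) (h : ∀ i j, v (M i j) ≤ c i) :
    v M.det ≤ n.factorial * ∏ j, c j := by
  classical
  have hterm : ∀ σ : Equiv.Perm (Fin n), v (Equiv.Perm.sign σ • ∏ i, M (σ i) i) ≤ ∏ j, c j := by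
    intro σ
    have h1 : v (Equiv.Perm.sign σ • ∏ i, M (σ i) i) = v (∏ i, M (σ i) i) := by
      rcases Int.units_eq_one_or (Equiv.Perm.sign σ) with h2 | h2
      · rw [h2, one_smul]
      · rw [h2, Units.neg_smul, one_smul, v.map_neg]
    rw [h1, map_prod, ← Equiv.prod_comp σ c]
    exact Finset.prod_le_prod (fun i _ => v.nonneg _) fun i _ => h _ _
  rw [Matrix.det_apply]
  refine (v.sum_le _ _).trans ?_
  refine (Finset.sum_le_sum fun σ _ => hterm σ).trans (le_of_eq ?_)
  rw [Finset.sum_const, Finset.card_univ, Fintype.card_perm, Fintype.card_fin, nsmul_eq_mul]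

/-- the entries -/
theorem entry_le {K : Type} [Field K] [Algebra ℚ K] {N : ℕ} (v : AbsoluteValue K ℝ) {I : ℕ}
    {g : ℕ → ℚ[X]} {kf : ℕ → ℕ} {q : ℕ → ℕ} (hq : ∀ i, q i ≤ 3) (x : Fin N → K) (j : Fin N) :
    v (aeval (x j) (∏ i ∈ Finset.range (I + 1), g (kf i) ^ (q i))) ≤
      mx (I + 1) (fun j i => aeval (x j) (g (kf i))) v j := by
  rw [map_prod, map_prod, mx]
  refine Finset.prod_le_prod (fun _ _ => v.nonneg _) fun i _ => ?_
  rw [map_pow, map_pow]
  calc v (aeval (x j) (g (kf i))) ^ (q i) ≤ (max 1 (v (aeval (x j) (g (kf i))))) ^ (q i) :=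
        pow_le_pow_left₀ (v.nonneg _) (le_max_right _ _) _
    _ ≤ _ := pow_le_pow_right₀ (le_max_left _ _) (hq i)

/-- integral elements -/
theorem integral_le_one {K : Type} [Field K] {v : AbsoluteValue K ℝ} (hv : IsNonarchimedean v)
    {y : K} (hy : IsIntegral ℤ y) : v y ≤ 1 := by
  obtain ⟨h, hm, hr⟩ := hy
  by_contra hlt
  push Not at hlt
  have hy0 : y ≠ 0 := by
    rintro rfl
    rw [map_zero] at hlt
    linarith
  have hinv : v y⁻¹ ≤ 1 := by
    rw [map_inv₀]
    exact inv_le_one_of_one_le₀ hlt.le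
  have hn : h.natDegree ≠ 0 := by
    intro h0
    have h1 : h = 1 := hm.natDegree_eq_zero.1 h0
    rw [h1, eval₂_one] at hr
    exact one_ne_zero hr
  obtain ⟨n, hn'⟩ := Nat.exists_eq_succ_of_ne_zero hn
  rw [eval₂_eq_sum_range, hn', Nat.succ_eq_add_one, Finset.sum_range_succ] at hr
  have hlead : h.coeff (n + 1) = 1 := by
    rw [← Nat.succ_eq_add_one, ← hn']
    exact hm
  rw [hlead, map_one, one_mul] at hr
  have h1 : y = -∑ i ∈ Finset.range (n + 1), (h.coeff i : K) * (y⁻¹) ^ (n - i) := by
    have h2 : y ^ n * y = y ^ n *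
        (-∑ i ∈ Finset.range (n + 1), (h.coeff i : K) * (y⁻¹) ^ (n - i)) := by
      rw [mul_neg, Finset.mul_sum]
      have h3 : ∀ i ∈ Finset.range (n + 1), y ^ n * ((h.coeff i : K) * (y⁻¹) ^ (n - i)) =
          algebraMap ℤ K (h.coeff i) * y ^ i := by
        intro i hi
        have h4 : i ≤ n := Nat.lt_succ_iff.1 (Finset.mem_range.1 hi)
        have h5 : y ^ n = y ^ i * y ^ (n - i) := by
          rw [← pow_add, Nat.add_sub_cancel' h4]
        rw [h5, inv_pow]
        simp only [algebraMap_int_eq, eq_intCast]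
        field_simp
      rw [Finset.sum_congr rfl h3, ← pow_succ]
      exact eq_neg_of_add_eq_zero_right hr
    exact mul_left_cancel₀ (pow_ne_zero _ hy0) h2
  have h2 : y ∈ OO v hv := by
    rw [h1]
    refine Subring.neg_mem _ (Subring.sum_mem _ fun i _ => ?_)
    exact Subring.mul_mem _ (intCast_mem _ _) (Subring.pow_mem _ (mem_OO.2 hinv) _)
  have h3 := mem_OO.1 h2
  linarith

/-- the height of the inverse of a positive integer -/
theorem ht_nat {K : Type} [Field K] [NumberField K] (n : ℕ) (hn : 1 ≤ n) :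
    logHeight₁ ((n : K)⁻¹) ≤ Module.finrank ℚ K * Real.log n := by
  rw [logHeight₁_inv]
  obtain ⟨T, hT⟩ := exT (K := K) {(n : K)}
  rw [ht (n : K) T fun h0 => hT _ (Finset.mem_singleton_self _) h0]
  have h1 : ∑ v ∈ T, Real.posLog (v.val (n : K)) = 0 := by
    refine Finset.sum_eq_zero fun v _ => ?_
    rw [Real.posLog_eq_zero_iff, abs_of_nonneg (v.val.nonneg _)]
    exact IsNonarchimedean.apply_natCast_le_one (isNonarchimedean v.val v.2)
  rw [h1, add_zero]
  have hn0 : (1 : ℝ) ≤ n := by exact_mod_cast hn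
  have h2 : ((archAbsVal (K := K)).map fun v => Real.posLog (v (n : K))).sum ≤
      ((archAbsVal (K := K)).map fun _ => Real.log n).sum := by
    refine Multiset.sum_map_le_sum_map _ _ fun v _ => ?_
    have h3 : v (n : K) ≤ n := by
      clear hn hT h1 hn0
      induction n with
      | zero => simp
      | succ k ih =>
        push_cast
        refine (v.add_le _ _).trans ?_
        rw [map_one]
        linarith
    calc Real.posLog (v (n : K)) ≤ Real.posLog (n : ℝ) :=
          Real.posLog_le_posLog (v.nonneg _) h3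
      _ = Real.log n := Real.posLog_eq_log (by rw [abs_of_nonneg (by linarith)]; exact hn0)
  refine h2.trans (le_of_eq ?_)
  rw [Multiset.map_const', Multiset.sum_replicate, nsmul_eq_mul]
  have h5 : (archAbsVal (K := K)).card = Module.finrank ℚ K :=
    NumberField.totalWeight_eq_finrank K
  rw [h5]

theorem ineq {K : Type} [Field K] [NumberField K] {L : ℕ} {g : ℕ → ℚ[X]} {a : ℕ → ℚ}
    (hg : IsProg L g a) (hgL : g L ≠ 0) {N : ℕ} (hN : 1 ≤ N) (x : Fin N → K)
    (hx : Function.Injective x) (hroot : ∀ j, aeval (x j) (g L) = 0) {d : ℕ} (hd : 1 ≤ d)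
    (hdeg : ∀ j, (minpoly ℚ (x j)).natDegree ≤ d) {PP : Finset ℕ} (hPP : ∀ p ∈ PP, p.Prime)
    {s : ℕ} (hs1 : 1 ≤ s) (hs : ∀ p ∈ PP, d * p ^ d ≤ s) {A B : ℝ} {nn : Fin N → ℕ}
    (hnn1 : ∀ j, 1 ≤ nn j) (hnnx : ∀ j, IsIntegral ℤ ((nn j : K) * x j))
    (hnna : ∀ j, ∀ k ≤ L, ∃ m : ℤ, (m : ℚ) = nn j * a k) (hA : ∑ j, Real.log (nn j) ≤ N * A)
    (hB : ∀ k ≤ L, ∑ j, logHeight₁ (aeval (x j) (g k)) ≤ N * (Module.finrank ℚ K * B)) :
    ∃ I : ℕ, 2 ^ I ≤ N ∧ (∑ p ∈ PP, Real.log p) * ((N : ℝ) ^ 2 / (2 * s) - 3 / 2 * N) ≤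
      Real.log N.factorial + 3 * (N * ((I + 1) * B)) + N / s * (N * A) := by
  classical
  have hNL : N ≤ (g L).natDegree := by
    have h0 : (g L).map (algebraMap ℚ K) ≠ 0 :=
      (Polynomial.map_ne_zero_iff (algebraMap ℚ K).injective).2 hgL
    have h1 : (Finset.univ.image x) ⊆ ((g L).map (algebraMap ℚ K)).roots.toFinset := by
      intro z hz
      obtain ⟨j, _, rfl⟩ := Finset.mem_image.1 hz
      rw [Multiset.mem_toFinset, mem_roots h0, IsRoot.def, ← eval₂_eq_eval_map, ← aeval_def]
      exact hroot j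
    have h2 := (Finset.card_le_card h1).trans
      ((Multiset.toFinset_card_le _).trans (card_roots' _))
    rwa [Finset.card_image_of_injective _ hx, Finset.card_univ, Fintype.card_fin,
      natDegree_map_eq_of_injective (algebraMap ℚ K).injective] at h2
  obtain ⟨I, kf, q, hI, hk, hq, hf⟩ := family hg hN hNL
  refine ⟨I, hI, ?_⟩
  obtain ⟨z, hz⟩ : ∃ z : Fin N → ℕ → K, z = fun j _ => ((nn j : ℕ) : K)⁻¹ := ⟨_, rfl⟩
  obtain ⟨f, hfd⟩ : ∃ f : Fin N → ℚ[X],
    f = fun m => ∏ i ∈ Finset.range (I + 1), g (kf i) ^ (q m i) := ⟨_, rfl⟩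
  obtain ⟨M, hM⟩ : ∃ M : Matrix (Fin N) (Fin N) K, M = Matrix.of fun j m => aeval (x j) (f m) :=
    ⟨_, rfl⟩
  have hdet : M.det ≠ 0 := by
    rw [hM]
    refine det_ne_zero x hx f (fun m => ?_) fun m => ?_
    · rw [hfd]
      exact (hf m).1
    · rw [hfd]
      exact (hf m).2
  have hMe : ∀ v : AbsoluteValue K ℝ, ∀ j m, v (M j m) ≤
      mx (I + 1) (fun j i => aeval (x j) (g (kf i))) v j := by
    intro v j m
    rw [hM, Matrix.of_apply, hfd]
    exact entry_le v (hq m) x j
  have hglob := global (z := z) (m := 1) hdet hs1 hPP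
    (fun v _ => det_le_any v M _ (hMe v))
    (fun v hv => det_le_row (isNonarchimedean v hv) M _ (hMe v))
    (fun v hv p hpPP hvp => by
      have hna := isNonarchimedean v hv
      have hp := hPP p hpPP
      obtain ⟨J, hJ⟩ : ∃ J, J = good 1 z v := ⟨_, rfl⟩
      rw [← hJ]
      have hgood : ∀ j : {j // j ∈ J}, 1 ≤ v ((nn j : ℕ) : K) := by
        intro j
        have h1 : (j : Fin N) ∈ good 1 z v := by
          rw [← hJ]
          exact j.2
        rw [good, Finset.mem_filter] at h1
        have h2 := h1.2 0 one_pos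
        have h0 : 0 < v ((nn j : ℕ) : K) := v.pos (by
          have := hnn1 j
          exact_mod_cast (by omega : nn j ≠ 0))
        have h3 : v (z j 0) = (v ((nn j : ℕ) : K))⁻¹ := by
          rw [hz, ← map_inv₀]
        rw [h3] at h2
        exact (inv_le_one₀ h0).1 h2
      have hdiv : ∀ (j : {j // j ∈ J}) (w : K), v (((nn j : ℕ) : K) * w) ≤ 1 → v w ≤ 1 := by
        intro j w hw
        rw [map_mul] at hw
        calc v w = 1 * v w := (one_mul _).symm
          _ ≤ v ((nn j : ℕ) : K) * v w := mul_le_mul_of_nonneg_right (hgood j) (v.nonneg _)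
          _ ≤ 1 := hw
      have hxle : ∀ j : {j // j ∈ J}, v (x j) ≤ 1 := fun j =>
        hdiv j _ (integral_le_one hna (hnnx j))
      have hP : ∃ P : Fin N → (OO v hna)[X], ∀ (j : {j // j ∈ J}) m,
          (((P m).eval ⟨x j, hxle j⟩ : OO v hna) : K) = M j m := by
        rcases isEmpty_or_nonempty {j // j ∈ J} with he | ⟨⟨j0⟩⟩
        · exact ⟨fun _ => 0, fun j => (IsEmpty.false j).elim⟩
        · have hc : ∀ k ≤ L, v (algebraMap ℚ K (a k)) ≤ 1 := by
            intro k hk'
            refine hdiv j0 _ ?_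
            obtain ⟨m, hm⟩ := hnna j0 k hk'
            have h1 : ((nn j0 : ℕ) : K) * algebraMap ℚ K (a k) = (m : K) := by
              have h2 := congrArg (algebraMap ℚ K) hm
              rw [map_mul, map_natCast, map_intCast] at h2
              exact h2.symm
            rw [h1]
            exact int_le_one hna m
          have hl := lift hna hg hc
          have hl' : ∀ i, ∃ G : (OO v hna)[X], i ≤ I →
              G.map (OO v hna).subtype = (g (kf i)).map (algebraMap ℚ K) := by
            intro i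
            by_cases hi : i ≤ I
            · obtain ⟨G, hG⟩ := hl (kf i) (hk i hi)
              exact ⟨G, fun _ => hG⟩
            · exact ⟨0, fun h => absurd h hi⟩
          choose G hG using hl'
          refine ⟨fun m => ∏ i ∈ Finset.range (I + 1), G i ^ (q m i), fun j m => ?_⟩
          have h1 : ((((∏ i ∈ Finset.range (I + 1), G i ^ (q m i)) : (OO v hna)[X]).eval
              ⟨x j, hxle j⟩ : OO v hna) : K) =
              ((∏ i ∈ Finset.range (I + 1), G i ^ (q m i)).map (OO v hna).subtype).eval (x j) := by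
            have h2 := Polynomial.eval_map_apply (OO v hna).subtype
              (p := ∏ i ∈ Finset.range (I + 1), G i ^ (q m i)) (⟨x j, hxle j⟩ : OO v hna)
            exact h2.symm
          rw [h1, hM, Matrix.of_apply, hfd, aeval_def, eval₂_eq_eval_map, Polynomial.map_prod,
            Polynomial.map_prod]
          congr 1
          refine Finset.prod_congr rfl fun i hi => ?_
          have h3 := Finset.mem_range.1 hi
          rw [Polynomial.map_pow, Polynomial.map_pow, hG i (by omega)]
      obtain ⟨P, hP⟩ := hP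
      have hdl := det_local hna M J _ (fun j => one_le_mx (I + 1) _ v j) (hMe v)
        (fun j => ⟨x j, hxle j⟩) P hP hp hd fun j => by
          obtain ⟨h, h0, h1, h2⟩ := int_eq (hdeg j) X
          rw [aeval_X] at h2
          exact om_small hna hp (hxle j) h0 h1 h2
      refine hdl.trans (mul_le_mul_of_nonneg_left ?_ (Finset.prod_nonneg fun j _ => by
        linarith [one_le_mx (I + 1) (fun j i => aeval (x j) (g (kf i))) v j]))
      refine pow_le_pow_of_le_one (v.nonneg _) hvp.le (Finset.sum_le_sum fun l _ => ?_)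
      exact Nat.div_le_div_left (hs p hpPP) (Nat.mul_pos hd (pow_pos hp.pos _)))
    (fun v hv p hpPP hvp j k _ h1 => by
      have hna := isNonarchimedean v hv
      have hp := hPP p hpPP
      have h2 : z j k = algebraMap ℚ K ((nn j : ℚ)⁻¹) := by
        rw [hz, map_inv₀, map_natCast]
      rw [h2] at h1 ⊢
      have hn0 : nn j ≠ 0 := by
        have := hnn1 j
        omega
      have h3 := ramif (d := 1) hna hp hvp h1 (h := C (nn j : ℤ) * X - 1) (by
        intro h0
        have h4 := congrArg (fun w : ℤ[X] => w.coeff 1) h0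
        simp only [coeff_sub, coeff_C_mul, coeff_X_one, mul_one, coeff_zero] at h4
        rw [coeff_one, if_neg (by norm_num), sub_zero] at h4
        exact hn0 (by exact_mod_cast h4)) (by
        refine (natDegree_sub_le _ _).trans (max_le ?_ ?_)
        · exact (natDegree_C_mul_le _ _).trans natDegree_X_le
        · rw [natDegree_one]
          exact Nat.zero_le _) (by
        rw [map_sub, map_mul, aeval_C, aeval_X, map_one]
        simp only [algebraMap_int_eq, map_inv₀, map_natCast]
        rw [mul_inv_cancel₀ (by exact_mod_cast hn0), sub_self])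
      rwa [Nat.cast_one, one_mul] at h3)
  have hy : ∑ j : Fin N, ∑ i ∈ Finset.range (I + 1), logHeight₁ (aeval (x j) (g (kf i))) ≤
      Module.finrank ℚ K * (N * ((I + 1) * B)) := by
    rw [Finset.sum_comm]
    calc ∑ i ∈ Finset.range (I + 1), ∑ j : Fin N, logHeight₁ (aeval (x j) (g (kf i))) ≤
          ∑ _i ∈ Finset.range (I + 1), ((N : ℝ) * (Module.finrank ℚ K * B)) :=
            Finset.sum_le_sum fun i hi =>
              hB (kf i) (hk i (by have := Finset.mem_range.1 hi; omega))
      _ = _ := by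
          rw [Finset.sum_const, Finset.card_range, nsmul_eq_mul]
          push_cast
          ring
  have hzz : ∑ j : Fin N, ∑ k ∈ Finset.range 1, logHeight₁ (z j k) ≤
      Module.finrank ℚ K * (N * A) := by
    have h1 : ∀ j : Fin N, ∑ k ∈ Finset.range 1, logHeight₁ (z j k) ≤
        Module.finrank ℚ K * Real.log (nn j) := by
      intro j
      rw [Finset.sum_range_one, hz]
      exact ht_nat (nn j) (hnn1 j)
    calc _ ≤ ∑ j : Fin N, (Module.finrank ℚ K * Real.log (nn j) : ℝ) :=
          Finset.sum_le_sum fun j _ => h1 j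
      _ = Module.finrank ℚ K * ∑ j : Fin N, Real.log (nn j) := by rw [Finset.mul_sum]
      _ ≤ _ := mul_le_mul_of_nonneg_left hA (Nat.cast_nonneg _)
  have h3 : (N : ℝ) / s * ∑ j : Fin N, ∑ k ∈ Finset.range 1, logHeight₁ (z j k) ≤
      N / s * (Module.finrank ℚ K * (N * A)) := mul_le_mul_of_nonneg_left hzz (by positivity)
  have hD : (0 : ℝ) < Module.finrank ℚ K := by exact_mod_cast Module.finrank_pos
  refine le_of_mul_le_mul_left ?_ hD
  calc _ ≤ _ := hglob
    _ ≤ Module.finrank ℚ K * Real.log N.factorial +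
        3 * (Module.finrank ℚ K * (N * ((I + 1) * B))) +
        N / s * (Module.finrank ℚ K * (N * A)) := by linarith
    _ = _ := by ring

end Pool.Agent.TH777.LD
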