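import Mathlib
import Pool.Agent.H537R6.U_PAD

set_option autoImplicit false

/-!
# Nonarchimedean absolute values: integral elements, ramification, determinants
-/

namespace Pool.Agent.TH777.LD

open Polynomial

variable {K : Type} [Field K]

/-- the ring of the elements of absolute value at most one -/
def OO (v : AbsoluteValue K ℝ) (hv : IsNonarchimedean v) : Subring K where
  carrier := {y | v y ≤ 1}
  mul_mem' := by
    intro a b ha hb
    show v (a * b) ≤ 1
    rw [map_mul]
    exact mul_le_one₀ ha (v.nonneg b) hb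
  one_mem' := by
    show v 1 ≤ 1
    rw [map_one]
  add_mem' := by
    intro a b ha hb
    exact (hv a b).trans (max_le ha hb)
  zero_mem' := by
    show v 0 ≤ 1
    rw [map_zero]
    norm_num
  neg_mem' := by
    intro a ha
    show v (-a) ≤ 1
    rw [v.map_neg]
    exact ha

theorem mem_OO {v : AbsoluteValue K ℝ} {hv : IsNonarchimedean v} {y : K} :
    y ∈ OO v hv ↔ v y ≤ 1 := Iff.rfl

theorem int_le_one {v : AbsoluteValue K ℝ} (hv : IsNonarchimedean v) (n : ℤ) : v (n : K) ≤ 1 :=
  (mem_OO (hv := hv)).1 (intCast_mem _ n)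

theorem coprime_eq_one {v : AbsoluteValue K ℝ} (hv : IsNonarchimedean v) {p : ℕ} (hp : p.Prime)
    (hvp : v (p : K) < 1) {n : ℤ} (hn : ¬ (p : ℤ) ∣ n) : v (n : K) = 1 := by
  have h1 : IsCoprime (p : ℤ) n := (Prime.coprime_iff_not_dvd (Nat.prime_iff_prime_int.1 hp)).2 hn
  obtain ⟨a, b, hab⟩ := h1
  refine le_antisymm (int_le_one hv n) ?_
  by_contra hlt
  push Not at hlt
  have h2 : v ((a * p + b * n : ℤ) : K) < 1 := by
    push_cast
    refine (hv _ _).trans_lt (max_lt ?_ ?_)
    · rw [map_mul]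
      calc v (a : K) * v (p : K) ≤ 1 * v (p : K) :=
            mul_le_mul_of_nonneg_right (int_le_one hv a) (v.nonneg _)
        _ < 1 := by rw [one_mul]; exact hvp
    · rw [map_mul]
      calc v (b : K) * v (n : K) ≤ 1 * v (n : K) :=
            mul_le_mul_of_nonneg_right (int_le_one hv b) (v.nonneg _)
        _ < 1 := by rw [one_mul]; exact hlt
  rw [hab, Int.cast_one, map_one] at h2
  exact lt_irrefl _ h2

theorem int_eq_pow {v : AbsoluteValue K ℝ} (hv : IsNonarchimedean v) {p : ℕ} (hp : p.Prime)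
    (hvp : v (p : K) < 1) {n : ℤ} (hn : n ≠ 0) : ∃ e : ℕ, v (n : K) = v (p : K) ^ e := by
  have hfin : FiniteMultiplicity (p : ℤ) n := by
    rw [Int.finiteMultiplicity_iff]
    refine ⟨?_, hn⟩
    rw [Int.natAbs_natCast]
    exact hp.one_lt.ne'
  obtain ⟨m, hm, hndvd⟩ := hfin.exists_eq_pow_mul_and_not_dvd
  refine ⟨multiplicity (p : ℤ) n, ?_⟩
  have h1 := coprime_eq_one hv hp hvp hndvd
  conv_lhs => rw [hm]
  push_cast
  rw [map_mul, map_pow, h1, mul_one]

/-- the ramification index is at most the degree -/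
theorem ramif [CharZero K] {v : AbsoluteValue K ℝ} (hv : IsNonarchimedean v) {p : ℕ}
    (hp : p.Prime) (hvp : v (p : K) < 1) {d : ℕ} {y : K} (hy : 1 < v y) {h : ℤ[X]} (h0 : h ≠ 0)
    (hd : h.natDegree ≤ d) (hr : aeval y h = 0) : -Real.log (v (p : K)) ≤ d * Real.log (v y) := by
  classical
  have hsum : ∑ i ∈ h.support, (h.coeff i : K) * y ^ i = 0 := by
    rw [aeval_eq_sum_range] at hr
    rw [← hr]
    have : h.support ⊆ Finset.range (h.natDegree + 1) := supp_subset_range_natDegree_succ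
    rw [Finset.sum_subset this]
    · refine Finset.sum_congr rfl fun i _ => ?_
      rw [zsmul_eq_mul]
    · intro i _ hi
      rw [notMem_support_iff.1 hi]
      simp
  have hne : h.support.Nonempty := by
    rw [Finset.nonempty_iff_ne_empty]
    intro h1
    exact h0 (support_eq_empty.1 h1)
  obtain ⟨k, hk, hmax⟩ := Finset.exists_max_image h.support
    (fun i => v ((h.coeff i : K) * y ^ i)) hne
  have hy0 : y ≠ 0 := by
    rintro rfl
    rw [map_zero] at hy
    linarith
  have hpos : ∀ i ∈ h.support, 0 < v ((h.coeff i : K) * y ^ i) := by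
    intro i hi
    refine v.pos (mul_ne_zero ?_ (pow_ne_zero _ hy0))
    exact_mod_cast mem_support_iff.1 hi
  obtain ⟨j, hj, hjk, hjV⟩ : ∃ j ∈ h.support, j ≠ k ∧
      v ((h.coeff j : K) * y ^ j) = v ((h.coeff k : K) * y ^ k) := by
    by_contra hcon
    push Not at hcon
    have h1 := IsNonarchimedean.apply_sum_eq_of_lt hv (fun a => (v.map_neg a).symm)
      (s := h.support) (l := fun i => (h.coeff i : K) * y ^ i) hk
      (fun i hi hik => lt_of_le_of_ne (hmax i hi) (hcon i hi hik))
    rw [hsum, map_zero] at h1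
    exact (hpos k hk).ne h1
  -- two indices with the same absolute value
  have key : ∀ i j : ℕ, i ∈ h.support → j ∈ h.support → i < j →
      v ((h.coeff i : K) * y ^ i) = v ((h.coeff j : K) * y ^ j) →
      -Real.log (v (p : K)) ≤ d * Real.log (v y) := by
    intro i j hi hj hij hV
    obtain ⟨ei, hei⟩ := int_eq_pow hv hp hvp (mem_support_iff.1 hi)
    obtain ⟨ej, hej⟩ := int_eq_pow hv hp hvp (mem_support_iff.1 hj)
    rw [map_mul, map_mul, map_pow, map_pow, hei, hej] at hV
    have hp0 : 0 < v (p : K) := v.pos (by exact_mod_cast hp.ne_zero)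
    have hy1 : 0 < v y := by linarith
    have hV' := congrArg Real.log hV
    rw [Real.log_mul (by positivity) (by positivity), Real.log_mul (by positivity) (by positivity),
      Real.log_pow, Real.log_pow, Real.log_pow, Real.log_pow] at hV'
    have hlogy : 0 < Real.log (v y) := Real.log_pos hy
    have hlogp : Real.log (v (p : K)) < 0 := Real.log_neg hp0 hvp
    have hijr : (i : ℝ) < j := by exact_mod_cast hij
    have h1 : ei < ej := by
      by_contra hle
      push Not at hle
      have hle' : (ej : ℝ) ≤ ei := by exact_mod_cast hle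
      nlinarith
    have h2 : (ei : ℝ) + 1 ≤ ej := by exact_mod_cast h1
    have h3 : (j : ℝ) ≤ d := by
      have := (le_natDegree_of_mem_supp j hj).trans hd
      exact_mod_cast this
    have hi0 : (0 : ℝ) ≤ i := Nat.cast_nonneg _
    have h4 : ((j : ℝ) - i) * Real.log (v y) = ((ej : ℝ) - ei) * (-Real.log (v (p : K))) := by
      linarith
    have h5 : 1 * (-Real.log (v (p : K))) ≤ ((ej : ℝ) - ei) * (-Real.log (v (p : K))) :=
      mul_le_mul_of_nonneg_right (by linarith) (by linarith)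
    have h6 : ((j : ℝ) - i) * Real.log (v y) ≤ d * Real.log (v y) :=
      mul_le_mul_of_nonneg_right (by linarith) hlogy.le
    linarith
  rcases lt_or_gt_of_ne hjk with h1 | h1
  · exact key j k hj hk h1 hjV
  · exact key k j hk hj h1 hjV.symm

/-- values of integral polynomials -/
theorem int_poly_le_one {v : AbsoluteValue K ℝ} (hv : IsNonarchimedean v) {ξ : K} (hξ : v ξ ≤ 1)
    (h : ℤ[X]) : v (aeval ξ h) ≤ 1 := by
  have h1 : aeval ξ h ∈ OO v hv := by
    rw [aeval_eq_sum_range]
    refine Subring.sum_mem _ fun i _ => ?_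
    rw [zsmul_eq_mul]
    exact Subring.mul_mem _ (intCast_mem _ _) (Subring.pow_mem _ (mem_OO.2 hξ) _)
  exact h1

/-- the product of all monic polynomials of degree `d` with coefficients in `[0, p)` -/
noncomputable def Om (p d : ℕ) : ℤ[X] :=
  ∏ c : Fin d → Fin p, (X ^ d + ∑ i : Fin d, C ((c i : ℕ) : ℤ) * X ^ (i : ℕ))

theorem fac_monic (p d : ℕ) (c : Fin d → Fin p) :
    (X ^ d + ∑ i : Fin d, C ((c i : ℕ) : ℤ) * X ^ (i : ℕ) : ℤ[X]).Monic :=
  monic_X_pow_add (degree_sum_fin_lt _)

theorem fac_deg (p d : ℕ) (c : Fin d → Fin p) :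
    (X ^ d + ∑ i : Fin d, C ((c i : ℕ) : ℤ) * X ^ (i : ℕ) : ℤ[X]).natDegree = d := by
  rw [natDegree_add_eq_left_of_degree_lt, natDegree_X_pow]
  rw [degree_X_pow]
  exact degree_sum_fin_lt _

theorem Om_monic (p d : ℕ) : (Om p d).Monic := monic_prod_of_monic _ _ fun c _ => fac_monic p d c

theorem Om_deg (p d : ℕ) : (Om p d).natDegree = d * p ^ d := by
  rw [Om, natDegree_prod_of_monic _ _ fun c _ => fac_monic p d c]
  simp only [fac_deg]
  rw [Finset.sum_const, Finset.card_univ, smul_eq_mul, Fintype.card_fun, Fintype.card_fin,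
    Fintype.card_fin, mul_comm]

theorem om_small [CharZero K] {v : AbsoluteValue K ℝ} (hv : IsNonarchimedean v) {p : ℕ}
    (hp : p.Prime) {d : ℕ} {ξ : K} (hξ : v ξ ≤ 1) {h : ℤ[X]} (h0 : h ≠ 0)
    (hd : h.natDegree ≤ d) (hr : aeval ξ h = 0) : v (aeval ξ (Om p d)) ≤ v (p : K) := by
  classical
  have hc0 : h.content ≠ 0 := by
    rwa [Ne, content_eq_zero_iff]
  obtain ⟨h', hh'⟩ : ∃ h' : ℤ[X], h' = h.primPart := ⟨_, rfl⟩
  have hr' : aeval ξ h' = 0 := by
    have h1 : aeval ξ h = (h.content : K) * aeval ξ h' := by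
      conv_lhs => rw [h.eq_C_content_mul_primPart]
      rw [map_mul, aeval_C, ← hh']
      simp
    rw [hr] at h1
    rcases mul_eq_zero.1 h1.symm with h2 | h2
    · exact absurd (by exact_mod_cast h2) hc0
    · exact h2
  have hdeg : h'.natDegree ≤ d := by
    rw [hh', natDegree_primPart]
    exact hd
  have hex : ∃ i, i ≤ d ∧ ¬ (p : ℤ) ∣ h'.coeff i := by
    by_contra hcon
    push Not at hcon
    have h1 : C (p : ℤ) ∣ h' := by
      rw [C_dvd_iff_dvd_coeff]
      intro i
      rcases le_or_gt i d with hi | hi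
      · exact hcon i hi
      · rw [coeff_eq_zero_of_natDegree_lt (by omega)]
        exact dvd_zero _
    have h2 := (isPrimitive_primPart h) (p : ℤ) (by rw [← hh']; exact h1)
    rw [Int.isUnit_iff] at h2
    have := hp.two_le
    omega
  obtain ⟨i0, hi0, hi0'⟩ := hex
  obtain ⟨e, he⟩ : ∃ e, e = Nat.findGreatest (fun i => ¬ (p : ℤ) ∣ h'.coeff i) d := ⟨_, rfl⟩
  have he1 : e ≤ d := by
    rw [he]
    exact Nat.findGreatest_le _
  have he2 : ¬ (p : ℤ) ∣ h'.coeff e := by
    rw [he]
    exact Nat.findGreatest_spec (P := fun i => ¬ (p : ℤ) ∣ h'.coeff i) hi0 hi0'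
  have he3 : ∀ i, e < i → (p : ℤ) ∣ h'.coeff i := by
    intro i hi
    rcases le_or_gt i d with hid | hid
    · by_contra h1
      exact Nat.findGreatest_is_greatest (P := fun i => ¬ (p : ℤ) ∣ h'.coeff i)
        (by rw [← he]; exact hi) hid h1
    · rw [coeff_eq_zero_of_natDegree_lt (by omega)]
      exact dvd_zero _
  obtain ⟨w, u, hwu⟩ : IsCoprime (p : ℤ) (h'.coeff e) :=
    (Prime.coprime_iff_not_dvd (Nat.prime_iff_prime_int.1 hp)).2 he2
  have hp0 : (0 : ℤ) < p := by exact_mod_cast hp.pos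
  obtain ⟨F, hF⟩ : ∃ F : ℤ[X], F = C u * h' * X ^ (d - e) := ⟨_, rfl⟩
  have hc : ∀ i : Fin d, ∃ c : Fin p, (p : ℤ) ∣ ((c : ℕ) : ℤ) - F.coeff i := by
    intro i
    have h1 := Int.emod_nonneg (F.coeff i) hp0.ne'
    have h2 := Int.emod_lt_of_pos (F.coeff i) hp0
    refine ⟨⟨(F.coeff i % p).toNat, ?_⟩, ?_⟩
    · have : ((F.coeff i % p).toNat : ℤ) < p := by
        rw [Int.toNat_of_nonneg h1]
        exact h2
      exact_mod_cast this
    · show (p : ℤ) ∣ ((F.coeff i % p).toNat : ℤ) - F.coeff i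
      rw [Int.toNat_of_nonneg h1]
      exact (Int.modEq_iff_dvd.1 (Int.mod_modEq (F.coeff i) p).symm)
  choose c hc using hc
  obtain ⟨G, hG⟩ : ∃ G : ℤ[X], G = X ^ d + ∑ i : Fin d, C ((c i : ℕ) : ℤ) * X ^ (i : ℕ) := ⟨_, rfl⟩
  have hFc : ∀ n, F.coeff n = if d - e ≤ n then u * h'.coeff (n - (d - e)) else 0 := by
    intro n
    rw [hF, coeff_mul_X_pow']
    split_ifs
    · rw [coeff_C_mul]
    · rfl
  have hGc : ∀ n, (p : ℤ) ∣ (G - F).coeff n := by
    intro n
    rw [coeff_sub]
    rcases lt_trichotomy n d with hn | hn | hn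
    · have h1 : G.coeff n = ((c ⟨n, hn⟩ : ℕ) : ℤ) := by
        rw [hG, coeff_add, coeff_X_pow, if_neg (by omega), zero_add, finsetSum_coeff]
        rw [Finset.sum_eq_single ⟨n, hn⟩]
        · rw [coeff_C_mul_X_pow, if_pos rfl]
        · intro b _ hb
          rw [coeff_C_mul_X_pow, if_neg]
          intro h2
          exact hb (Fin.ext h2.symm)
        · intro h2
          exact absurd (Finset.mem_univ _) h2
      rw [h1]
      exact hc ⟨n, hn⟩
    · have h1 : G.coeff n = 1 := by
        have h2 := fac_monic p d c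
        have h3 := fac_deg p d c
        rw [← hG] at h2 h3
        rw [hn, ← h3]
        exact h2
      rw [h1, hFc, if_pos (by omega)]
      have h2 : n - (d - e) = e := by omega
      rw [h2]
      exact ⟨w, by linarith⟩
    · have h1 : G.coeff n = 0 := by
        have h3 := fac_deg p d c
        rw [← hG] at h3
        exact coeff_eq_zero_of_natDegree_lt (by omega)
      rw [h1, hFc, if_pos (by omega), zero_sub, dvd_neg]
      exact (he3 _ (by omega)).mul_left _
  obtain ⟨R, hR⟩ := (C_dvd_iff_dvd_coeff _ _).2 hGc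
  have hGv : aeval ξ G = (p : K) * aeval ξ R := by
    have h1 : aeval ξ (G - F) = (p : K) * aeval ξ R := by
      rw [hR, map_mul, aeval_C]
      simp
    have h2 : aeval ξ F = 0 := by
      rw [hF, map_mul, map_mul, hr', mul_zero, zero_mul]
    rw [map_sub, h2, sub_zero] at h1
    exact h1
  have hGle : v (aeval ξ G) ≤ v (p : K) := by
    rw [hGv, map_mul]
    calc v (p : K) * v (aeval ξ R) ≤ v (p : K) * 1 :=
          mul_le_mul_of_nonneg_left (int_poly_le_one hv hξ R) (v.nonneg _)
      _ = _ := mul_one _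
  rw [Om, map_prod, ← Finset.mul_prod_erase _ _ (Finset.mem_univ c), map_mul, ← hG]
  calc v (aeval ξ G) * v (∏ c' ∈ Finset.univ.erase c,
        aeval ξ (X ^ d + ∑ i : Fin d, C ((c' i : ℕ) : ℤ) * X ^ (i : ℕ))) ≤ v (p : K) * 1 := by
        refine mul_le_mul hGle ?_ (v.nonneg _) (v.nonneg _)
        rw [← map_prod]
        exact int_poly_le_one hv hξ _
    _ = _ := mul_one _

/-- the ultrametric bound for determinants, column by column -/
theorem det_le_col {v : AbsoluteValue K ℝ} (hv : IsNonarchimedean v) {n : ℕ}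
    (M : Matrix (Fin n) (Fin n) K) (c : Fin n → ℝ) (h : ∀ i j, v (M i j) ≤ c j) :
    v M.det ≤ ∏ j, c j := by
  classical
  have hterm : ∀ σ : Equiv.Perm (Fin n), v (Equiv.Perm.sign σ • ∏ i, M (σ i) i) ≤ ∏ j, c j := by
    intro σ
    have h1 : v (Equiv.Perm.sign σ • ∏ i, M (σ i) i) = v (∏ i, M (σ i) i) := by
      rcases Int.units_eq_one_or (Equiv.Perm.sign σ) with h2 | h2
      · rw [h2, one_smul]
      · rw [h2, Units.neg_smul, one_smul, v.map_neg]
    rw [h1, map_prod]
    exact Finset.prod_le_prod (fun i _ => v.nonneg _) fun i _ => h _ _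
  rw [Matrix.det_apply]
  refine (IsNonarchimedean.apply_sum_le_sup hv Finset.univ_nonempty).trans ?_
  exact Finset.sup'_le _ _ fun σ _ => hterm σ

/-- Vandermonde determinants of algebraic numbers of bounded degree -/
theorem vdm_small {v : AbsoluteValue K ℝ} (hv : IsNonarchimedean v) {p d : ℕ} (hp : p.Prime)
    (hd : 1 ≤ d) {n : ℕ} (ξ : Fin n → K) (hξ : ∀ i, v (ξ i) ≤ 1)
    (hO : ∀ i, v (aeval (ξ i) (Om p d)) ≤ v (p : K)) :
    v (Matrix.vandermonde ξ).det ≤ v (p : K) ^ (∑ l ∈ Finset.range n, l / (d * p ^ d)) := by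
  classical
  obtain ⟨s, hs⟩ : ∃ s, s = d * p ^ d := ⟨_, rfl⟩
  have hs0 : 0 < s := by
    rw [hs]
    exact Nat.mul_pos hd (pow_pos hp.pos _)
  obtain ⟨b, hb⟩ : ∃ b : ℕ → ℤ[X], b = fun l => X ^ (l % s) * Om p d ^ (l / s) := ⟨_, rfl⟩
  have hbm : ∀ l, (b l).Monic := by
    intro l
    rw [hb]
    exact (monic_X_pow _).mul ((Om_monic p d).pow _)
  have hbd : ∀ l, (b l).natDegree = l := by
    intro l
    rw [hb]
    show (X ^ (l % s) * Om p d ^ (l / s)).natDegree = l
    rw [(monic_X_pow _).natDegree_mul ((Om_monic p d).pow _), natDegree_X_pow,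
      (Om_monic p d).natDegree_pow, Om_deg, ← hs]
    have := Nat.mod_add_div l s
    rw [mul_comm s] at this
    exact this
  rw [Matrix.det_eval_matrixOfPolynomials_eq_det_vandermonde ξ
    (fun j => (b j).map (Int.castRingHom K)) (fun j => by
      rw [(hbm j).natDegree_map, hbd]) (fun j => (hbm j).map _)]
  refine (det_le_col hv _ (fun j => v (p : K) ^ ((j : ℕ) / s)) ?_).trans (le_of_eq ?_)
  · intro i j
    rw [Matrix.of_apply]
    have h1 : eval (ξ i) ((b j).map (Int.castRingHom K)) = aeval (ξ i) (b j) := by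
      rw [aeval_def, eval₂_eq_eval_map]
      rfl
    rw [h1, hb]
    show v (aeval (ξ i) (X ^ ((j : ℕ) % s) * Om p d ^ ((j : ℕ) / s))) ≤ _
    rw [map_mul, map_pow, map_pow, aeval_X, map_mul, map_pow, map_pow]
    calc v (ξ i) ^ ((j : ℕ) % s) * v (aeval (ξ i) (Om p d)) ^ ((j : ℕ) / s) ≤
        1 * v (p : K) ^ ((j : ℕ) / s) :=
          mul_le_mul (pow_le_one₀ (v.nonneg _) (hξ i))
            (pow_le_pow_left₀ (v.nonneg _) (hO i) _) (pow_nonneg (v.nonneg _) _) zero_le_one
      _ = _ := one_mul _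
  · rw [Finset.prod_pow_eq_pow_sum, ← hs]
    congr 1
    exact Fin.sum_univ_eq_sum_range (fun l => l / s) n

end Pool.Agent.TH777.LD
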