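import Mathlib
import Pool.Agent.Helper256.KM.Mertens

set_option autoImplicit false

/-!
# The choice of the primes and the numerical conclusion
-/

namespace Pool.Agent.TH777.LD

open Finset

/-- primes in an interval -/
theorem primes : ∃ c : ℕ, 1 ≤ c ∧ ∀ b : ℕ, 1 ≤ b → ∃ PP : Finset ℕ,
    (∀ p ∈ PP, p.Prime ∧ p ≤ c * b) ∧ (b : ℝ) ≤ ∑ p ∈ PP, Real.log (p : ℝ) := by
  obtain ⟨C, hC⟩ := Pool.Agent.Helper256.KM.mertens_log
  obtain ⟨c, hc⟩ : ∃ c : ℕ, c = ⌈Real.exp (2 * C + 1)⌉₊ + 1 := ⟨_, rfl⟩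
  have hc1 : 1 ≤ c := by omega
  refine ⟨c, hc1, fun b hb => ⟨(Ioc b (c * b)).filter Nat.Prime, ?_, ?_⟩⟩
  · intro p hp
    rw [mem_filter, mem_Ioc] at hp
    exact ⟨hp.2, hp.1.2⟩
  · have hu : (Icc 1 (c * b)).filter Nat.Prime =
        (Icc 1 b).filter Nat.Prime ∪ (Ioc b (c * b)).filter Nat.Prime := by
      ext p
      have hbc : b ≤ c * b := Nat.le_mul_of_pos_left _ hc1
      simp only [mem_union, mem_filter, mem_Icc, mem_Ioc]
      constructor
      · rintro ⟨⟨h1, h2⟩, h3⟩
        rcases le_or_gt p b with h4 | h4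
        · exact Or.inl ⟨⟨h1, h4⟩, h3⟩
        · exact Or.inr ⟨⟨h4, h2⟩, h3⟩
      · rintro (⟨⟨h1, h2⟩, h3⟩ | ⟨⟨h1, h2⟩, h3⟩)
        · exact ⟨⟨h1, by omega⟩, h3⟩
        · exact ⟨⟨by omega, h2⟩, h3⟩
    have hd : Disjoint ((Icc 1 b).filter Nat.Prime) ((Ioc b (c * b)).filter Nat.Prime) := by
      rw [disjoint_left]
      intro p hp1 hp2
      rw [mem_filter, mem_Icc] at hp1
      rw [mem_filter, mem_Ioc] at hp2
      omega
    have hN1 := hC (c * b) (Nat.mul_pos hc1 hb)
    have hb1 := hC b hb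
    rw [hu, sum_union hd] at hN1
    rw [abs_le] at hN1 hb1
    have hb0 : (0 : ℝ) < b := by exact_mod_cast hb
    have hc0 : (0 : ℝ) < c := by exact_mod_cast hc1
    have h1 : Real.log ((c * b : ℕ) : ℝ) = Real.log c + Real.log b := by
      push_cast
      rw [Real.log_mul hc0.ne' hb0.ne']
    have h2 : 2 * C + 1 ≤ Real.log c := by
      rw [Real.le_log_iff_exp_le hc0, hc]
      push_cast
      have := Nat.le_ceil (Real.exp (2 * C + 1))
      linarith
    rw [h1] at hN1
    have h3 : 1 ≤ ∑ p ∈ (Ioc b (c * b)).filter Nat.Prime, Real.log p / p := by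
      linarith [hN1.1, hb1.2]
    calc (b : ℝ) = b * 1 := (mul_one _).symm
      _ ≤ b * ∑ p ∈ (Ioc b (c * b)).filter Nat.Prime, Real.log p / p :=
          mul_le_mul_of_nonneg_left h3 hb0.le
      _ = ∑ p ∈ (Ioc b (c * b)).filter Nat.Prime, b * (Real.log p / p) := by rw [mul_sum]
      _ ≤ _ := by
        refine sum_le_sum fun p hp => ?_
        rw [mem_filter, mem_Ioc] at hp
        have hp0 : (0 : ℝ) < p := by exact_mod_cast hp.2.pos
        have hbp : (b : ℝ) ≤ p := by exact_mod_cast hp.1.1.le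
        rw [mul_div_assoc', div_le_iff₀ hp0, mul_comm]
        exact mul_le_mul_of_nonneg_left hbp (Real.log_natCast_nonneg p)

/-- the numerical conclusion -/
theorem num {d N I : ℕ} (hd : 1 ≤ d) (hN : 1 ≤ N) {Θ A B s ρ : ℝ} (hA : 1 ≤ A) (hAB : A ≤ B)
    (hΘ : 4 * A ≤ Θ) (hs0 : 0 < s) (hρ : 1 ≤ ρ) (hs : s ≤ ρ ^ d * A ^ d) (hI : 2 ^ I ≤ N)
    (h : Θ * ((N : ℝ) ^ 2 / (2 * s) - 3 / 2 * N) ≤
      Real.log N.factorial + 3 * (N * ((I + 1) * B)) + N / s * (N * A)) :
    (N : ℝ) ≤ (4 * ρ * (30 + 7 * ρ)) ^ d * (A ^ (d - 1) * B * (1 + Real.log B)) := by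
  have hd1 : (1 : ℝ) ≤ d := by exact_mod_cast hd
  have hN1 : (1 : ℝ) ≤ N := by exact_mod_cast hN
  have hB : 1 ≤ B := hA.trans hAB
  have hN0 : (0 : ℝ) < N := by linarith
  have hA0 : 0 < A := by linarith
  have hB0 : 0 < B := by linarith
  have hρ0 : 0 < ρ := by linarith
  have hΘ0 : 0 < Θ := by linarith
  have hlog2 := Real.log_two_gt_d9
  have h6 : Real.log N.factorial ≤ N * Real.log N := by
    rw [← Real.log_pow]
    refine Real.log_le_log (by exact_mod_cast N.factorial_pos) ?_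
    exact_mod_cast Nat.factorial_le_pow N
  have hlN : 0 ≤ Real.log (N : ℝ) := Real.log_nonneg hN1
  have hI' : (I : ℝ) ≤ 2 * Real.log N := by
    have h7 : Real.log ((2 : ℝ) ^ I) ≤ Real.log N :=
      Real.log_le_log (by positivity) (by exact_mod_cast hI)
    rw [Real.log_pow] at h7
    have h8 : (I : ℝ) * (1 / 2) ≤ I * Real.log 2 :=
      mul_le_mul_of_nonneg_left (by linarith) (Nat.cast_nonneg _)
    linarith
  -- combine
  have h7 : (N : ℝ) * (Θ * N) ≤ N * (4 * s * (B * (7 * Real.log N + 3)) + 6 * s * Θ) := by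
    have h8 : Real.log (N : ℝ) ≤ B * Real.log N := by
      calc Real.log (N : ℝ) = 1 * Real.log N := (one_mul _).symm
        _ ≤ B * Real.log N := mul_le_mul_of_nonneg_right hB hlN
    have h9 : 3 * (((I : ℝ) + 1) * B) ≤ 3 * ((2 * Real.log N + 1) * B) :=
      mul_le_mul_of_nonneg_left (mul_le_mul_of_nonneg_right (by linarith) hB0.le) (by norm_num)
    have h10 : Θ * ((N : ℝ) ^ 2 / (2 * s) - 3 / 2 * N) ≤
        N * (B * Real.log N) + N * (3 * ((2 * Real.log N + 1) * B)) + N / s * (N * A) := by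
      have e1 : 3 * ((N : ℝ) * ((I + 1) * B)) = N * (3 * ((I + 1) * B)) := by ring
      rw [e1] at h
      have h11 := mul_le_mul_of_nonneg_left h9 hN0.le
      have h12 := mul_le_mul_of_nonneg_left h8 hN0.le
      linarith
    have h11 := mul_le_mul_of_nonneg_left h10 (by positivity : (0 : ℝ) ≤ 4 * s)
    have e2 : 4 * s * (Θ * ((N : ℝ) ^ 2 / (2 * s) - 3 / 2 * N)) =
        2 * (N * (Θ * N)) - 6 * s * Θ * N := by
      field_simp
      ring
    have e3 : 4 * s * (N * (B * Real.log N) + N * (3 * ((2 * Real.log N + 1) * B)) +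
        N / s * (N * A)) = N * (4 * s * (B * (7 * Real.log N + 3))) + N * N * (4 * A) := by
      field_simp
      ring
    rw [e2, e3] at h11
    have h12 : (N : ℝ) * N * (4 * A) ≤ N * N * Θ := mul_le_mul_of_nonneg_left hΘ (by positivity)
    have e4 : (N : ℝ) * (4 * s * (B * (7 * Real.log N + 3)) + 6 * s * Θ) =
        N * (4 * s * (B * (7 * Real.log N + 3))) + 6 * s * Θ * N := by ring
    rw [e4]
    linarith
  have h8 : Θ * N ≤ 4 * s * (B * (7 * Real.log N + 3)) + 6 * s * Θ := le_of_mul_le_mul_left h7 hN0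
  obtain ⟨R, hR⟩ : ∃ R : ℝ, R = ρ ^ d * (A ^ (d - 1) * B) := ⟨_, rfl⟩
  have hR0 : 0 < R := by
    rw [hR]
    positivity
  have hsR : s * B ≤ A * R := by
    have e1 : A ^ d = A * A ^ (d - 1) := by
      rw [← pow_succ']
      congr 1
      omega
    calc s * B ≤ ρ ^ d * A ^ d * B := mul_le_mul_of_nonneg_right hs hB0.le
      _ = _ := by
        rw [hR, e1]
        ring
  have h9 : (N : ℝ) ≤ R * (7 * Real.log N + 9) := by
    have h10 : Θ * N ≤ Θ * (R * (7 * Real.log N + 9)) := by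
      have h11 : 4 * s * (B * (7 * Real.log N + 3)) ≤ Θ * (R * (7 * Real.log N + 3)) := by
        calc 4 * s * (B * (7 * Real.log N + 3)) = 4 * (s * B) * (7 * Real.log N + 3) := by ring
          _ ≤ 4 * (A * R) * (7 * Real.log N + 3) :=
              mul_le_mul_of_nonneg_right (by linarith) (by linarith)
          _ = 4 * A * (R * (7 * Real.log N + 3)) := by ring
          _ ≤ Θ * (R * (7 * Real.log N + 3)) :=
              mul_le_mul_of_nonneg_right hΘ (mul_nonneg hR0.le (by linarith))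
      have h12 : s ≤ R := by
        have h13 : A * s ≤ A * R := by
          calc A * s = s * A := mul_comm _ _
            _ ≤ s * B := mul_le_mul_of_nonneg_left hAB hs0.le
            _ ≤ A * R := hsR
        exact le_of_mul_le_mul_left h13 hA0
      have h14 : 6 * s * Θ ≤ Θ * (R * 6) := by
        calc 6 * s * Θ = Θ * (s * 6) := by ring
          _ ≤ Θ * (R * 6) := mul_le_mul_of_nonneg_left (by linarith) hΘ0.le
      have e5 : Θ * (R * (7 * Real.log N + 9)) = Θ * (R * (7 * Real.log N + 3)) + Θ * (R * 6) := by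
        ring
      rw [e5]
      linarith
    exact le_of_mul_le_mul_left h10 hΘ0
  have h10 : Real.log N ≤ N / (14 * R) + Real.log (14 * R) := by
    have h10 := Real.log_le_sub_one_of_pos (x := (N : ℝ) / (14 * R)) (by positivity)
    rw [Real.log_div hN0.ne' (by positivity)] at h10
    linarith
  have h11 : (N : ℝ) ≤ 2 * R * (7 * Real.log (14 * R) + 9) := by
    have h11 : R * (7 * Real.log N) ≤ N / 2 + R * (7 * Real.log (14 * R)) := by
      have h12 := mul_le_mul_of_nonneg_left (mul_le_mul_of_nonneg_left h10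
        (by norm_num : (0 : ℝ) ≤ 7)) hR0.le
      have e1 : R * (7 * ((N : ℝ) / (14 * R) + Real.log (14 * R))) =
          N / 2 + R * (7 * Real.log (14 * R)) := by
        field_simp
        ring
      rw [e1] at h12
      exact h12
    have e2 : R * (7 * Real.log N + 9) = R * (7 * Real.log N) + R * 9 := by ring
    rw [e2] at h9
    have e3 : 2 * R * (7 * Real.log (14 * R) + 9) =
        2 * (R * (7 * Real.log (14 * R))) + 2 * (R * 9) := by
      ring
    rw [e3]
    linarith
  -- the size of `R`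
  have hlA : 0 ≤ Real.log A := Real.log_nonneg hA
  have hlB : 0 ≤ Real.log B := Real.log_nonneg hB
  have hlAB : Real.log A ≤ Real.log B := Real.log_le_log hA0 hAB
  have hlR : Real.log (14 * R) ≤ d * (3 + ρ + Real.log B) := by
    have e1 : Real.log (14 * R) = Real.log 14 + (d * Real.log ρ +
        (((d - 1 : ℕ) : ℝ) * Real.log A + Real.log B)) := by
      rw [hR, Real.log_mul (by norm_num) (by positivity), Real.log_mul (by positivity)
        (by positivity), Real.log_mul (by positivity) hB0.ne', Real.log_pow, Real.log_pow]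
    have h12 : ((d - 1 : ℕ) : ℝ) * Real.log A ≤ ((d - 1 : ℕ) : ℝ) * Real.log B :=
      mul_le_mul_of_nonneg_left hlAB (Nat.cast_nonneg _)
    have h13 : ((d - 1 : ℕ) : ℝ) * Real.log B + Real.log B = d * Real.log B := by
      rw [Nat.cast_sub hd]
      push_cast
      ring
    have h14 : Real.log 14 ≤ 3 := by
      have h15 : Real.log 14 ≤ Real.log (2 ^ 4) := Real.log_le_log (by norm_num) (by norm_num)
      rw [Real.log_pow] at h15
      have := Real.log_two_lt_d9
      push_cast at h15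
      linarith
    have h15 : Real.log ρ ≤ ρ := by
      have := Real.log_le_sub_one_of_pos hρ0
      linarith
    have h16 : (d : ℝ) * Real.log ρ ≤ d * ρ := mul_le_mul_of_nonneg_left h15 (by linarith)
    rw [e1]
    nlinarith
  have h12 : 7 * Real.log (14 * R) + 9 ≤ d * (30 + 7 * ρ) * (1 + Real.log B) := by
    have h13 : 0 ≤ (d : ℝ) * (23 + 7 * ρ) * Real.log B := by positivity
    have e4 : (d : ℝ) * (30 + 7 * ρ) * (1 + Real.log B) = 7 * (d * (3 + ρ + Real.log B)) + 9 * d +
        d * (23 + 7 * ρ) * Real.log B := by ring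
    rw [e4]
    linarith
  have h13 : (2 : ℝ) * d * (30 + 7 * ρ) ≤ (4 * (30 + 7 * ρ)) ^ d := by
    have h14 : (d : ℝ) ≤ 2 ^ d := by exact_mod_cast (Nat.lt_two_pow_self (n := d)).le
    have h15 : 2 * (30 + 7 * ρ) ≤ (2 * (30 + 7 * ρ)) ^ d :=
      le_self_pow₀ (by linarith) (by omega)
    have e5 : (4 * (30 + 7 * ρ)) ^ d = 2 ^ d * (2 * (30 + 7 * ρ)) ^ d := by
      rw [← mul_pow]
      ring
    rw [e5]
    calc (2 : ℝ) * d * (30 + 7 * ρ) = d * (2 * (30 + 7 * ρ)) := by ring
      _ ≤ 2 ^ d * (2 * (30 + 7 * ρ)) ^ d :=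
          mul_le_mul h14 h15 (by positivity) (by positivity)
  calc (N : ℝ) ≤ 2 * R * (7 * Real.log (14 * R) + 9) := h11
    _ ≤ 2 * R * (d * (30 + 7 * ρ) * (1 + Real.log B)) :=
        mul_le_mul_of_nonneg_left h12 (by positivity)
    _ = (2 * d * (30 + 7 * ρ)) * (ρ ^ d * (A ^ (d - 1) * B * (1 + Real.log B))) := by
        rw [hR]
        ring
    _ ≤ (4 * (30 + 7 * ρ)) ^ d * (ρ ^ d * (A ^ (d - 1) * B * (1 + Real.log B))) :=
        mul_le_mul_of_nonneg_right h13 (by positivity)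
    _ = _ := by
        rw [← mul_assoc, ← mul_pow]
        congr 2
        ring

end Pool.Agent.TH777.LD
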