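import Pool.Agent.TH777.LD.Ineq
import Pool.Agent.TH777.LD.Num

set_option autoImplicit false

/-!
# The bound for the number of roots of bounded degree
-/

namespace Pool.Agent.TH777.LD

open Polynomial Height

theorem main : ∃ C : ℝ, ∀ (d : ℕ) (K : Type) [Field K] [NumberField K] (L : ℕ) (g : ℕ → ℚ[X])
    (a : ℕ → ℚ) (n : K → ℕ) (A B : ℝ) (S : Finset K), IsProg L g a → g L ≠ 0 → 1 ≤ A → A ≤ B →
    (∀ x ∈ S, aeval x (g L) = 0 ∧ (minpoly ℚ x).natDegree ≤ d ∧ 1 ≤ n x ∧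
      IsIntegral ℤ ((n x : K) * x) ∧ ∀ k ≤ L, ∃ m : ℤ, (m : ℚ) = n x * a k) →
    ∑ x ∈ S, Real.log (n x) ≤ S.card * A →
    (∀ k ≤ L, ∑ x ∈ S, logHeight₁ (aeval x (g k)) ≤ S.card * (Module.finrank ℚ K * B)) →
    (S.card : ℝ) ≤ C ^ d * (A ^ (d - 1) * B * (1 + Real.log B)) := by
  obtain ⟨c, hc, hprimes⟩ := primes
  have hc1 : (1 : ℝ) ≤ c := by exact_mod_cast hc
  obtain ⟨ρ, hρ⟩ : ∃ ρ : ℝ, ρ = 10 * c := ⟨_, rfl⟩
  have hρ1 : 1 ≤ ρ := by
    rw [hρ]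
    linarith
  refine ⟨4 * ρ * (30 + 7 * ρ), ?_⟩
  intro d K _ _ L g a nn A B S hg hgL hA hAB hS hSA hSB
  have hB : 1 ≤ B := hA.trans hAB
  rcases Nat.eq_zero_or_pos S.card with h0 | hcard
  · rw [h0, Nat.cast_zero]
    have h1 := Real.log_nonneg hB
    positivity
  obtain ⟨z, hz⟩ := Finset.card_pos.1 hcard
  have hd : 1 ≤ d := by
    have h1 := minpoly.natDegree_pos (A := ℚ) (x := z) (Algebra.IsIntegral.isIntegral z)
    exact h1.trans_le (hS z hz).2.1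
  obtain ⟨b, hb⟩ : ∃ b : ℕ, b = ⌈4 * A⌉₊ := ⟨_, rfl⟩
  have hb1 : 1 ≤ b := by
    rw [hb, Nat.one_le_ceil_iff]
    linarith
  have hb2 : 4 * A ≤ b := by
    rw [hb]
    exact Nat.le_ceil _
  have hb3 : (b : ℝ) ≤ 5 * A := by
    have h1 := Nat.ceil_lt_add_one (a := 4 * A) (by linarith)
    rw [← hb] at h1
    linarith
  obtain ⟨PP, hPP, h1⟩ := hprimes b hb1
  obtain ⟨N, hN⟩ : ∃ N, N = S.card := ⟨_, rfl⟩
  obtain ⟨x, hx, hxS, hsum⟩ : ∃ x : Fin N → K, Function.Injective x ∧ (∀ j, x j ∈ S) ∧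
      ∀ F : K → ℝ, ∑ j, F (x j) = ∑ x ∈ S, F x := by
    subst hN
    refine ⟨fun j => S.equivFin.symm j, fun i j hij => S.equivFin.symm.injective (Subtype.ext hij),
      fun j => (S.equivFin.symm j).2, fun F => ?_⟩
    rw [← Finset.sum_coe_sort S F]
    exact Equiv.sum_comp S.equivFin.symm fun w : S => F w
  rw [← hN] at hcard hSA hSB ⊢
  obtain ⟨s, hs⟩ : ∃ s : ℕ, s = d * (c * b) ^ d := ⟨_, rfl⟩
  have hs1 : 1 ≤ s := by
    rw [hs]
    exact Nat.mul_pos hd (pow_pos (Nat.mul_pos hc hb1) _)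
  have hsle : (s : ℝ) ≤ ρ ^ d * A ^ d := by
    have h2 : (d : ℝ) ≤ 2 ^ d := by exact_mod_cast (Nat.lt_two_pow_self (n := d)).le
    have h3 : (c : ℝ) * b ≤ 5 * c * A := by
      calc (c : ℝ) * b ≤ c * (5 * A) := mul_le_mul_of_nonneg_left hb3 (by linarith)
        _ = _ := by ring
    rw [hs]
    push_cast
    calc (d : ℝ) * (c * b) ^ d ≤ 2 ^ d * (5 * c * A) ^ d :=
          mul_le_mul h2 (pow_le_pow_left₀ (by positivity) h3 _) (by positivity) (by positivity)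
      _ = _ := by
        rw [← mul_pow, ← mul_pow, hρ]
        congr 1
        ring
  obtain ⟨I, hI, hineq⟩ := ineq (d := d) hg hgL hcard x hx (fun j => (hS _ (hxS j)).1) hd
    (fun j => (hS _ (hxS j)).2.1) (PP := PP) (fun p hp => (hPP p hp).1) hs1 (fun p hp => by
      rw [hs]
      exact Nat.mul_le_mul_left _ (Nat.pow_le_pow_left (hPP p hp).2 _)) (nn := fun j => nn (x j))
    (fun j => (hS _ (hxS j)).2.2.1) (fun j => (hS _ (hxS j)).2.2.2.1)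
    (fun j => (hS _ (hxS j)).2.2.2.2) (by rw [hsum fun w => Real.log (nn w)]; exact hSA)
    (fun k hk => by rw [hsum fun w => logHeight₁ (aeval w (g k))]; exact hSB k hk)
  exact num hd hcard hA hAB (hb2.trans h1) (by exact_mod_cast hs1) hρ1 hsle hI hineq

end Pool.Agent.TH777.LD
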