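import Pool.Agent.TH777.LD.DetLoc
import Pool.Agent.H537R6.U_RAD

set_option autoImplicit false

/-!
# Division-free programs
-/

namespace Pool.Agent.TH777.LD

open Polynomial Pool.Agent.H537R6

/-- `g 0, …, g L` is a program over `ℚ[X]` with the rational constants `a 0, …, a L`. -/
def IsProg (L : ℕ) (g : ℕ → ℚ[X]) (a : ℕ → ℚ) : Prop :=
  ∀ k ≤ L, g k = X ∨ g k = C (a k) ∨
    ∃ i < k, ∃ j < k, g k = g i + g j ∨ g k = g i - g j ∨ g k = g i * g j

theorem gate {L : ℕ} {g : ℕ → ℚ[X]} {a : ℕ → ℚ} (hg : IsProg L g a) (i : ℕ) (hL : 2 ^ i ≤ (g L).natDegree) :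
    ∃ k ≤ L, 2 ^ i ≤ (g k).natDegree ∧ (g k).natDegree < 2 ^ (i + 1) := by
  classical
  have hex : ∃ k, k ≤ L ∧ 2 ^ i ≤ (g k).natDegree := ⟨L, le_rfl, hL⟩
  obtain ⟨k, hkf⟩ : ∃ k, k = Nat.find hex := ⟨_, rfl⟩
  have hspec := Nat.find_spec hex
  rw [← hkf] at hspec
  obtain ⟨hk, hdeg⟩ := hspec
  have hmin : ∀ j < k, (g j).natDegree < 2 ^ i := by
    intro j hj
    have h1 := Nat.find_min hex (by rw [← hkf]; exact hj)
    by_contra h
    exact h1 ⟨by omega, by omega⟩
  refine ⟨k, hk, hdeg, ?_⟩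
  have h1 : 1 ≤ 2 ^ i := Nat.one_le_two_pow
  have h2 : 2 ^ (i + 1) = 2 * 2 ^ i := by ring
  rcases hg k hk with h | h | ⟨u, hu, v, hv, h⟩
  · rw [h, natDegree_X]; omega
  · rw [h, natDegree_C]; positivity
  · have hu' := hmin u hu
    have hv' := hmin v hv
    rcases h with h | h | h
    · rw [h]
      have h3 := natDegree_add_le (g u) (g v)
      have h4 : max (g u).natDegree (g v).natDegree < 2 ^ i := max_lt hu' hv'
      omega
    · rw [h]
      have h3 := natDegree_sub_le (g u) (g v)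
      have h4 : max (g u).natDegree (g v).natDegree < 2 ^ i := max_lt hu' hv'
      omega
    · rw [h]
      have h3 := natDegree_mul_le (p := g u) (q := g v)
      omega

/-- the results are integral polynomials if the constants are integral -/
theorem lift {K : Type} [Field K] [Algebra ℚ K] {v : AbsoluteValue K ℝ} (hv : IsNonarchimedean v)
    {L : ℕ} {g : ℕ → ℚ[X]} {a : ℕ → ℚ} (hg : IsProg L g a)
    (hc : ∀ k ≤ L, v (algebraMap ℚ K (a k)) ≤ 1) :
    ∀ k ≤ L, ∃ G : (OO v hv)[X], G.map (OO v hv).subtype = (g k).map (algebraMap ℚ K) := by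
  intro k
  induction k using Nat.strong_induction_on with
  | _ k ih =>
    intro hk
    rcases hg k hk with h | h | ⟨i, hi, j, hj, h⟩
    · exact ⟨X, by rw [h, map_X, map_X]⟩
    · refine ⟨C ⟨algebraMap ℚ K (a k), hc k hk⟩, ?_⟩
      rw [h, map_C, map_C]
      rfl
    · obtain ⟨G, hG⟩ := ih i hi (by omega)
      obtain ⟨G', hG'⟩ := ih j hj (by omega)
      rcases h with h | h | h
      · exact ⟨G + G', by rw [h, Polynomial.map_add, Polynomial.map_add, hG, hG']⟩
      · exact ⟨G - G', by rw [h, Polynomial.map_sub, Polynomial.map_sub, hG, hG']⟩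
      · exact ⟨G * G', by rw [h, Polynomial.map_mul, Polynomial.map_mul, hG, hG']⟩

/-- an integral equation of degree at most `d` -/
theorem int_eq {K : Type} [Field K] [NumberField K] {x : K} {d : ℕ}
    (hx : (minpoly ℚ x).natDegree ≤ d) (f : ℚ[X]) :
    ∃ h : ℤ[X], h ≠ 0 ∧ h.natDegree ≤ d ∧ aeval (aeval x f) h = 0 := by
  classical
  have hint : IsIntegral ℚ x := Algebra.IsIntegral.isIntegral x
  obtain ⟨y, hy⟩ : ∃ y, y = aeval x f := ⟨_, rfl⟩
  rw [← hy]
  have hyint : IsIntegral ℚ y := Algebra.IsIntegral.isIntegral y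
  have hdeg : (minpoly ℚ y).natDegree ≤ d := by
    have : FiniteDimensional ℚ (IntermediateField.adjoin ℚ {x}) :=
      IntermediateField.adjoin.finiteDimensional hint
    have hmem : y ∈ IntermediateField.adjoin ℚ {x} := by
      rw [hy]
      exact IntermediateField.algebra_adjoin_le_adjoin _ _ (aeval_mem_adjoin_singleton ℚ x)
    have h1 : minpoly ℚ (⟨y, hmem⟩ : IntermediateField.adjoin ℚ {x}) = minpoly ℚ y :=
      IntermediateField.minpoly_eq _ |>.trans rfl
    have h2 := minpoly.natDegree_le (A := ℚ) (⟨y, hmem⟩ : IntermediateField.adjoin ℚ {x})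
    rw [h1, IntermediateField.adjoin.finrank hint] at h2
    exact h2.trans hx
  obtain ⟨b, hbm, hb⟩ := IsLocalization.integerNormalization_spec (nonZeroDivisors ℤ) (minpoly ℚ y)
  obtain ⟨h, hh⟩ : ∃ h, h = IsLocalization.integerNormalization (nonZeroDivisors ℤ)
    (minpoly ℚ y) := ⟨_, rfl⟩
  rw [← hh] at hb
  have hb0 : ((b : ℤ) : ℚ) ≠ 0 := by
    exact_mod_cast nonZeroDivisors.ne_zero hbm
  have hb' : h.map (algebraMap ℤ ℚ) = C ((b : ℤ) : ℚ) * minpoly ℚ y := by
    rw [hb]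
    ext n
    rw [coeff_C_mul, coeff_smul]
    exact zsmul_eq_mul _ _
  have hm0 : minpoly ℚ y ≠ 0 := minpoly.ne_zero hyint
  have hinj : Function.Injective (algebraMap ℤ ℚ) := by
    intro a c hac
    simpa using hac
  refine ⟨h, ?_, ?_, ?_⟩
  · rintro rfl
    rw [Polynomial.map_zero] at hb'
    exact mul_ne_zero (C_ne_zero.2 hb0) hm0 hb'.symm
  · rw [← natDegree_map_eq_of_injective hinj, hb']
    exact (natDegree_C_mul_le _ _).trans hdeg
  · have h1 : aeval y (h.map (algebraMap ℤ ℚ)) = 0 := by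
      rw [hb', map_mul, minpoly.aeval, mul_zero]
    rwa [aeval_map_algebraMap] at h1

/-- products of gates of all degrees -/
theorem family {L : ℕ} {g : ℕ → ℚ[X]} {a : ℕ → ℚ} (hg : IsProg L g a) {N : ℕ} (hN : 1 ≤ N)
    (hL : N ≤ (g L).natDegree) :
    ∃ (I : ℕ) (kf : ℕ → ℕ) (q : Fin N → ℕ → ℕ), 2 ^ I ≤ N ∧ (∀ i ≤ I, kf i ≤ L) ∧
      (∀ m i, q m i ≤ 3) ∧
      ∀ m : Fin N, (∏ i ∈ Finset.range (I + 1), g (kf i) ^ (q m i)) ≠ 0 ∧
        (∏ i ∈ Finset.range (I + 1), g (kf i) ^ (q m i)).natDegree = m := by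
  classical
  obtain ⟨I, hI⟩ : ∃ I, I = Nat.log 2 N := ⟨_, rfl⟩
  have hI1 : 2 ^ I ≤ N := by
    rw [hI]
    exact Nat.pow_log_le_self 2 (by omega)
  have hI2 : N < 2 ^ (I + 1) := by
    rw [hI]
    exact Nat.lt_pow_succ_log_self (by norm_num) N
  have hgate : ∀ i, ∃ k, i ≤ I → k ≤ L ∧ 2 ^ i ≤ (g k).natDegree ∧
      (g k).natDegree < 2 ^ (i + 1) := by
    intro i
    by_cases hi : i ≤ I
    · obtain ⟨k, h1, h2, h3⟩ := gate hg i
        (((Nat.pow_le_pow_right (by norm_num) hi).trans hI1).trans hL)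
      exact ⟨k, fun _ => ⟨h1, h2, h3⟩⟩
    · exact ⟨0, fun h => absurd h hi⟩
  choose kf hkf using hgate
  have hrad : ∀ m : Fin N, ∃ q : ℕ → ℕ, (∀ i, q i ≤ 3) ∧
      ∑ i ∈ Finset.range (I + 1), q i * (g (kf i)).natDegree = m := by
    intro m
    refine u_RAD I (fun i => (g (kf i)).natDegree) (fun i hi => (hkf i hi).2) m ?_
    have := m.2
    have h2 : 2 ^ (I + 2) = 2 * 2 ^ (I + 1) := by ring
    omega
  choose q hq hqs using hrad
  have hne : ∀ i ∈ Finset.range (I + 1), g (kf i) ≠ 0 := by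
    intro i hi h0
    have h1 := (hkf i (by have := Finset.mem_range.1 hi; omega)).2.1
    rw [h0, natDegree_zero] at h1
    have : 1 ≤ 2 ^ i := Nat.one_le_two_pow
    omega
  refine ⟨I, kf, q, hI1, fun i hi => (hkf i hi).1, hq, fun m => ⟨?_, ?_⟩⟩
  · exact Finset.prod_ne_zero_iff.2 fun i hi => pow_ne_zero _ (hne i hi)
  · rw [natDegree_prod _ _ (fun i hi => pow_ne_zero _ (hne i hi))]
    simp only [natDegree_pow]
    exact hqs m

/-- the determinant does not vanish -/
theorem det_ne_zero {K : Type} [Field K] [Algebra ℚ K] {N : ℕ} (x : Fin N → K)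
    (hx : Function.Injective x) (f : Fin N → ℚ[X]) (hf0 : ∀ m, f m ≠ 0)
    (hf : ∀ m, (f m).natDegree = m) :
    (Matrix.of fun j m => aeval (x j) (f m)).det ≠ 0 := by
  classical
  set W : Fin N → K[X] := fun m => (f m).map (algebraMap ℚ K) with hW
  have hWdeg : ∀ m : Fin N, (W m).natDegree = m := by
    intro m
    rw [hW]
    simp only
    rw [natDegree_map_eq_of_injective (algebraMap ℚ K).injective, hf]
  have hW0 : ∀ m, W m ≠ 0 := by
    intro m
    rw [hW]
    exact (Polynomial.map_ne_zero_iff (algebraMap ℚ K).injective).2 (hf0 m)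
  have h3 : (Matrix.of fun j m => aeval (x j) (f m)) =
      (Matrix.of (fun i j : Fin N => (W j).eval (x i))) := by
    ext i j
    rw [Matrix.of_apply, Matrix.of_apply, aeval_def, eval₂_eq_eval_map]
  rw [h3, Matrix.eval_matrixOfPolynomials_eq_vandermonde_mul_matrixOfPolynomials x
    (fun j : Fin N => W j) (fun j => (hWdeg j).le), Matrix.det_mul]
  refine mul_ne_zero (Matrix.det_vandermonde_ne_zero_iff.2 hx) ?_
  rw [Matrix.det_of_isUpperTriangular]
  · refine Finset.prod_ne_zero_iff.2 fun j _ => ?_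
    rw [Matrix.of_apply]
    have h4 := leadingCoeff_ne_zero.2 (hW0 j)
    rw [leadingCoeff, hWdeg j] at h4
    exact h4
  · intro i j hij
    rw [Matrix.of_apply]
    apply coeff_eq_zero_of_natDegree_lt
    rw [hWdeg j]
    exact hij

end Pool.Agent.TH777.LD
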